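import Mathlib

set_option autoImplicit false

/-! A spectrally arbitrary irreducible sign pattern of order 89 with 177 nonzero entries:
definitions.  The set up is that of `Pool.Agent.Helper993.TwoN` (the zero-nonzero case), with
signs, on the 90-gon. -/

namespace Pool.Agent.K1H10.SP

open Polynomial

/-! ### The pattern -/

/-- The sign of the entry `(i, j)`: a vertex `43` with two petals
`0 → 1 → ⋯ → 42 → 43` and `43 → 44 → ⋯ → 88 → 43`. -/
def patS (i j : ℕ) : SignType :=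
  if j = i + 1 then 1
  else if i = 0 ∧ j = 0 then 1
  else if i = 42 ∧ j ≤ 40 then -1
  else if i = 43 ∧ j = 0 then -1
  else if i = 44 ∧ j = 44 then -1
  else if i = 88 ∧ 44 ≤ j ∧ j ≤ 87 then (if j % 2 = 1 then -1 else 1)
  else if i = 88 ∧ j = 43 then -1
  else 0

/-- Partial Horner values `h_l` of a polynomial of degree `D` at `b = - (coefficient of X^(D-1))`. -/
noncomputable def hs (F : ℝ[X]) (D : ℕ) : ℕ → ℝ
  | 0 => 1
  | l + 1 => -F.coeff (D - 1) * hs F D l + F.coeff (D - (l + 1))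

/-- The sign conditions for the first factor (degree 44). -/
def nice1 (F : ℝ[X]) : Prop :=
  F.coeff 42 = 0 ∧ F.coeff 43 < 0 ∧ 0 < F.coeff 0 ∧ ∀ l, 3 ≤ l → l ≤ 43 → 0 < hs F 44 l

/-- The sign conditions for the second factor (degree 46). -/
def nice2 (F : ℝ[X]) : Prop :=
  0 < F.coeff 45 ∧ 0 < F.coeff 0 ∧ ∀ l, 2 ≤ l → l ≤ 45 → 0 < (-1) ^ l * hs F 46 l

/-! ### The 90-gons -/

/-- `cos (π m / 90)` -/
noncomputable def cs (m : ℕ) : ℝ := Real.cos (Real.pi * m / 90)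

/-- `exp (i π a / 90)` -/
noncomputable def w (a : ℕ) : ℂ := Complex.exp (((Real.pi * a / 90 : ℝ) : ℂ) * Complex.I)

/-- Exponents of the 90-gon `z ^ 90 = (-1) ^ e`. -/
def PAR (e : ℕ) : Finset ℕ := (Finset.range 180).filter (fun a => a % 2 = e)

/-- The exponents in the open upper half plane. -/
def UP (e : ℕ) : Finset ℕ := (Finset.Ioo 0 90).filter (fun a => a % 2 = e)

/-- The conjugation closed set of exponents given by its upper half and by whether it contains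
both real points `1, -1`. -/
def full (U : Finset ℕ) (pm : Bool) : Finset ℕ :=
  (U ∪ U.image (fun a => 180 - a)) ∪ (if pm then {0, 90} else ∅)

/-- Half sets of 44 points of the 90-gon. -/
structure Valid (e : ℕ) (U : Finset ℕ) (pm : Bool) : Prop where
  he : e < 2
  hU : U ⊆ UP e
  hc : U.card + (if pm then 1 else 0) = 22
  hp : pm = true → e = 0

/-- The upper half of the complement. -/
def comp (e : ℕ) (U : Finset ℕ) : Finset ℕ := UP e \ U

/-- Whether the complement contains `1, -1`. -/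
def cpm (e : ℕ) (pm : Bool) : Bool := decide (e = 0) && !pm

/-- The perturbation `∑ ρ_j z^(90-j)`. -/
noncomputable def r (ρ : ℕ → ℝ) (z : ℂ) : ℂ := ∑ j ∈ Finset.Icc 1 89, (ρ j : ℂ) * z ^ (90 - j)

/-- Its derivative. -/
noncomputable def r' (ρ : ℕ → ℝ) (z : ℂ) : ℂ :=
  ∑ j ∈ Finset.Icc 1 89, (ρ j : ℂ) * ((90 - j : ℕ) : ℂ) * z ^ (89 - j)

/-- Side lengths of the box, in units of `1 / 10 ^ 6`. -/
def bdI (j : ℕ) : ℕ :=
  if 44 ≤ j ∧ j ≤ 48 then 15 else if j = 3 ∨ (36 ≤ j ∧ j ≤ 56) then 10 else 5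

/-- Side lengths of the box. -/
noncomputable def bd (j : ℕ) : ℝ := (bdI j : ℝ) / 1000000

/-- The box of perturbations. -/
def Box (ρ : ℕ → ℝ) : Prop := ∀ j ∈ Finset.Icc 1 89, |ρ j| ≤ bd j

/-- The perturbed polynomial. -/
noncomputable def P (ρ : ℕ → ℝ) (e : ℕ) : ℝ[X] :=
  X ^ 90 + (∑ j ∈ Finset.Icc 1 89, C (ρ j) * X ^ (90 - j)) - C ((-1) ^ e)

/-- First order displacement of the root `ω`. -/
noncomputable def xi1 (e : ℕ) (ρ : ℕ → ℝ) (ω : ℂ) : ℂ := -(-1) ^ e * ω * r ρ ω / 90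

/-- `z` is the root near `ω`. -/
def IsRoot' (e : ℕ) (ρ : ℕ → ℝ) (ω z : ℂ) : Prop :=
  ‖z - ω‖ ≤ 1 / 10000 ∧ z ^ 90 + r ρ z = (-1) ^ e

/-! ### Real quantities of a set -/

/-- Power sums of the set. -/
noncomputable def sg (U : Finset ℕ) (pm : Bool) (m : ℕ) : ℝ :=
  2 * (∑ a ∈ U, cs (m * a)) + (if pm then 1 + (-1) ^ m else 0)

/-- `e_2` of the set. -/
noncomputable def eta (U : Finset ℕ) (pm : Bool) : ℝ := (sg U pm 1 ^ 2 - sg U pm 2) / 2

/-- Coefficients of the first variation of `e_2`. -/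
noncomputable def Lc (U : Finset ℕ) (pm : Bool) (j : ℕ) : ℝ :=
  -(1 / 90) * (sg U pm 1 * sg U pm (j - 1) - sg U pm (if j = 1 then 1 else j - 2))

/-- The first variation of `e_2`. -/
noncomputable def L (U : Finset ℕ) (pm : Bool) (ρ : ℕ → ℝ) : ℝ :=
  ∑ j ∈ Finset.Icc 1 89, ρ j * Lc U pm j

/-- The real polynomial whose roots are the points of the set. -/
noncomputable def FU (U : Finset ℕ) (pm : Bool) : ℝ[X] :=
  (∏ a ∈ U, (X ^ 2 - C (2 * cs a) * X + 1)) * (if pm then X ^ 2 - 1 else 1)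

/-- The `l1` norm of the coefficients. -/
noncomputable def nrm (F : ℝ[X]) : ℝ := ∑ i ∈ Finset.range 91, |F.coeff i|

/-- The two factors of the perturbed polynomial, depending continuously on the perturbation. -/
structure Family (e : ℕ) (U : Finset ℕ) (pm : Bool) (F1 F2 : (ℕ → ℝ) → ℝ[X]) : Prop where
  monic1 : ∀ ρ, Box ρ → (F1 ρ).Monic
  deg1 : ∀ ρ, Box ρ → (F1 ρ).natDegree = 44
  monic2 : ∀ ρ, Box ρ → (F2 ρ).Monic
  deg2 : ∀ ρ, Box ρ → (F2 ρ).natDegree = 46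
  prod : ∀ ρ, Box ρ → F1 ρ * F2 ρ = P ρ e
  zero1 : F1 (fun _ => 0) = FU U pm
  zero2 : F2 (fun _ => 0) = FU (comp e U) (cpm e pm)
  close1 : ∀ ρ, Box ρ → ∀ i, |(F1 ρ).coeff i - (FU U pm).coeff i| ≤ 51 / 1000000 * nrm (FU U pm)
  close2 : ∀ ρ, Box ρ → ∀ i, |(F2 ρ).coeff i - (FU (comp e U) (cpm e pm)).coeff i| ≤
    51 / 1000000 * nrm (FU (comp e U) (cpm e pm))
  top1 : ∀ ρ, Box ρ → |(F1 ρ).coeff 43 - (FU U pm).coeff 43| ≤ 1 / 20000
  top2 : ∀ ρ, Box ρ → |(F2 ρ).coeff 45 - (FU (comp e U) (cpm e pm)).coeff 45| ≤ 1 / 20000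
  e2 : |sg U pm 1| ≤ 3 → ∀ ρ, Box ρ → |(F1 ρ).coeff 42 - (eta U pm + L U pm ρ)| ≤ 1 / 40000000
  cont : ∀ (γ : ℝ → ℕ → ℝ) (T : ℝ), (∀ j, Continuous (fun τ => γ τ j)) →
    (∀ τ ∈ Set.Icc 0 T, Box (γ τ)) → ∀ i, ContinuousOn (fun τ => (F1 (γ τ)).coeff i) (Set.Icc 0 T)

/-- The condition that makes a set of the certificate usable for every nearby pair of factors. -/
def NiceSet (e : ℕ) (U : Finset ℕ) (pm : Bool) : Prop :=
  ∀ F1 F2 : ℝ[X],
    (∀ i, |F1.coeff i - (FU U pm).coeff i| ≤ 51 / 1000000 * nrm (FU U pm)) →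
    (∀ i, |F2.coeff i - (FU (comp e U) (cpm e pm)).coeff i| ≤
      51 / 1000000 * nrm (FU (comp e U) (cpm e pm))) →
    |F1.coeff 43 - (FU U pm).coeff 43| ≤ 1 / 20000 →
    |F2.coeff 45 - (FU (comp e U) (cpm e pm)).coeff 45| ≤ 1 / 20000 →
    F1.coeff 42 = 0 → nice1 F1 ∧ nice2 F2

end Pool.Agent.K1H10.SP
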