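import Mathlib
import Pool.Agent.K1H10.SP.Defs
import Pool.Agent.Helper993.TwoN.A1a

set_option autoImplicit false


namespace Pool.Agent.K1H10.SP.A1b

open Polynomial
open Pool.Agent.K1H10.SP

/-- The entries of the matrix realising `p`. -/
noncomputable def Mt (F1 F2 : ℝ[X]) (i j : ℕ) : ℝ :=
  if j = i + 1 then 1
  else if i = 0 ∧ j = 0 then -F1.coeff 43
  else if i = 42 ∧ j ≤ 40 then -hs F1 44 (43 - j)
  else if i = 43 ∧ j = 0 then -F1.coeff 0
  else if i = 44 ∧ j = 44 then -F2.coeff 45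
  else if i = 88 ∧ 44 ≤ j ∧ j ≤ 87 then -hs F2 46 (89 - j)
  else if i = 88 ∧ j = 43 then -F2.coeff 0
  else 0

theorem hess_succ_10300 (M : ℕ → ℕ → ℝ) (m : ℕ) : Pool.Agent.Helper993.TwoN.hess M (m + 1) =
    (X - C (M m m)) * Pool.Agent.Helper993.TwoN.hess M m - ∑ c ∈ Finset.range m, C (M m c) * Pool.Agent.Helper993.TwoN.hess M c := by
  rw [Pool.Agent.Helper993.TwoN.hess, Finset.sum_range]

theorem shift_10300 (M : ℕ → ℕ → ℝ) (P : ℕ → ℝ[X])
    (Ps : ∀ m, P (m + 1) = (X - C (M m m)) * P m - ∑ c ∈ Finset.range m, C (M m c) * P c) (m0 : ℕ) (k : ℕ)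
    (hz : ∀ m, m0 ≤ m → m < m0 + k → ∀ c, c ≤ m → M m c = 0) :
    P (m0 + k) = X ^ k * P m0 := by
  induction k with
  | zero => simp
  | succ k ih =>
    have h1 := ih fun m hm hm' c hc => hz m hm (by omega) c hc
    rw [← add_assoc, Ps, h1, hz (m0 + k) (by omega) (by omega) _ le_rfl,
      Finset.sum_eq_zero, map_zero, sub_zero, sub_zero, pow_succ]
    · ring
    · intro c hc
      rw [hz (m0 + k) (by omega) (by omega) c (Finset.mem_range.1 hc).le, map_zero, zero_mul]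

/-- truncated polynomial -/
noncomputable def TT_10300 (F : ℝ[X]) (D m : ℕ) : ℝ[X] :=
  ∑ i ∈ Finset.range (m + 1), C (F.coeff (D - i)) * X ^ (m - i)

theorem TT_self_10300 (F : ℝ[X]) (D : ℕ) (hD : F.natDegree = D) : TT_10300 F D D = F := by
  unfold TT_10300
  have h1 := Finset.sum_range_reflect (fun i => C (F.coeff i) * X ^ i) (D + 1)
  simp only [Nat.add_sub_cancel] at h1
  rw [h1]
  conv_rhs => rw [F.as_sum_range_C_mul_X_pow, hD]

theorem TT_succ_10300 (F : ℝ[X]) (D m : ℕ) :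
    TT_10300 F D (m + 1) = X * TT_10300 F D m + C (F.coeff (D - (m + 1))) := by
  unfold TT_10300
  rw [Finset.sum_range_succ, Nat.sub_self, pow_zero, mul_one, Finset.mul_sum]
  congr 1
  refine Finset.sum_congr rfl fun i hi => ?_
  have : m + 1 - i = (m - i) + 1 := by
    have := Finset.mem_range.1 hi
    omega
  rw [this, pow_succ]
  ring

theorem horner_10300 (F : ℝ[X]) (D : ℕ) (h1 : F.coeff D = 1) (m : ℕ) :
    TT_10300 F D m = (∑ l ∈ Finset.range m, C (hs F D l) * (X - C (-F.coeff (D - 1))) *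
      X ^ (m - 1 - l)) + C (hs F D m) := by
  induction m with
  | zero => simp [TT_10300, hs, h1]
  | succ m ih =>
    rw [TT_succ_10300, ih, Finset.sum_range_succ, mul_add, Finset.mul_sum]
    have e1 : ∑ l ∈ Finset.range m, X * (C (hs F D l) * (X - C (-F.coeff (D - 1))) *
        X ^ (m - 1 - l)) = ∑ l ∈ Finset.range m, C (hs F D l) * (X - C (-F.coeff (D - 1))) *
        X ^ (m + 1 - 1 - l) := by
      refine Finset.sum_congr rfl fun l hl => ?_
      have : m + 1 - 1 - l = (m - 1 - l) + 1 := by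
        have := Finset.mem_range.1 hl
        omega
      rw [this, pow_succ]
      ring
    have e2 : m + 1 - 1 - m = 0 := by omega
    have e3 : hs F D (m + 1) = -F.coeff (D - 1) * hs F D m + F.coeff (D - (m + 1)) := rfl
    rw [e1, e2, e3, pow_zero, map_add, map_mul]
    ring

theorem horner'_10300 (F : ℝ[X]) (D : ℕ) (h1 : F.coeff D = 1) (m : ℕ) :
    TT_10300 F D (m + 1) = (∑ c ∈ Finset.range (m + 1), C (hs F D (m - c)) *
      (X ^ c * (X - C (-F.coeff (D - 1))))) + C (hs F D (m + 1)) := by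
  rw [horner_10300 F D h1]
  congr 1
  have h2 := Finset.sum_range_reflect (fun l => C (hs F D l) * (X - C (-F.coeff (D - 1))) *
      X ^ (m + 1 - 1 - l)) (m + 1)
  rw [← h2]
  refine Finset.sum_congr rfl fun c hc => ?_
  have hc' := Finset.mem_range.1 hc
  have e1 : m + 1 - 1 - c = m - c := by omega
  have e2 : m + 1 - 1 - (m - c) = c := by omega
  rw [e1, e2]
  ring

theorem Mt_zero_10300 (F1 F2 : ℝ[X]) (i j : ℕ) (h1 : j ≠ i + 1) (h2 : ¬(i = 0 ∧ j = 0))
    (h3 : ¬(i = 42 ∧ j ≤ 40)) (h4 : ¬(i = 43 ∧ j = 0)) (h5 : ¬(i = 44 ∧ j = 44))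
    (h6 : ¬(i = 88 ∧ 44 ≤ j ∧ j ≤ 87)) (h7 : ¬(i = 88 ∧ j = 43)) : Mt F1 F2 i j = 0 := by
  unfold Mt
  rw [if_neg h1, if_neg h2, if_neg h3, if_neg h4, if_neg h5, if_neg h6, if_neg h7]

theorem Mt_34_10300 (F1 F2 : ℝ[X]) (j : ℕ) (hj : j ≤ 40) :
    Mt F1 F2 42 j = -hs F1 44 (43 - j) := by
  unfold Mt
  rw [if_neg (by omega), if_neg (by omega), if_pos (by omega)]

theorem Mt_68_10300 (F1 F2 : ℝ[X]) (j : ℕ) (hj : 44 ≤ j) (hj' : j ≤ 87) :
    Mt F1 F2 88 j = -hs F2 46 (89 - j) := by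
  unfold Mt
  rw [if_neg (by omega), if_neg (by omega), if_neg (by omega), if_neg (by omega),
    if_neg (by omega), if_pos (by omega)]

theorem P_low_10300 (F1 F2 : ℝ[X]) (P : ℕ → ℝ[X]) (P0 : P 0 = 1)
    (Ps : ∀ m, P (m + 1) = (X - C (Mt F1 F2 m m)) * P m -
      ∑ c ∈ Finset.range m, C (Mt F1 F2 m c) * P c) (c : ℕ) (hc : c ≤ 41) :
    P (c + 1) = X ^ c * (X - C (-F1.coeff 43)) := by
  have h1 : P 1 = X - C (-F1.coeff 43) := by
    rw [Ps, Finset.sum_range_zero, sub_zero]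
    have : Mt F1 F2 0 0 = -F1.coeff 43 := by simp [Mt]
    rw [this, P0, mul_one]
  rw [add_comm c 1, shift_10300 (Mt F1 F2) P Ps 1 c, h1]
  intro m hm hm' j hj
  exact Mt_zero_10300 F1 F2 m j (by omega) (by omega) (by omega) (by omega) (by omega) (by omega)
    (by omega)

theorem P_35_10300 (F1 F2 : ℝ[X]) (P : ℕ → ℝ[X]) (P0 : P 0 = 1)
    (Ps : ∀ m, P (m + 1) = (X - C (Mt F1 F2 m m)) * P m -
      ∑ c ∈ Finset.range m, C (Mt F1 F2 m c) * P c) (hc1 : F1.coeff 44 = 1) (hc2 : F1.coeff 42 = 0) :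
    P 43 = TT_10300 F1 44 43 := by
  have hh1 : hs F1 44 1 = 0 := by
    show -F1.coeff (44 - 1) * 1 + F1.coeff (44 - (0 + 1)) = 0
    norm_num
  have hh2 : hs F1 44 2 = 0 := by
    show -F1.coeff (44 - 1) * hs F1 44 1 + F1.coeff (44 - (1 + 1)) = 0
    rw [hh1]
    norm_num
    exact hc2
  rw [show (43:ℕ) = 42 + 1 from rfl, Ps, horner'_10300 F1 44 hc1 42]
  have e1 : Mt F1 F2 42 42 = 0 := Mt_zero_10300 F1 F2 42 42 (by omega) (by omega) (by omega)
    (by omega) (by omega) (by omega) (by omega)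
  have e2 : P 42 = X ^ 41 * (X - C (-F1.coeff 43)) :=
    P_low_10300 F1 F2 P P0 Ps 41 le_rfl
  have e3 : ∑ c ∈ Finset.range 42, C (Mt F1 F2 42 c) * P c =
      -(∑ c ∈ Finset.range 41, C (hs F1 44 (42 - c)) * (X ^ c * (X - C (-F1.coeff (44 - 1)))))
      - C (hs F1 44 (42 + 1)) := by
    rw [Finset.sum_range_succ', Mt_34_10300 F1 F2 0 (by omega)]
    have e4 : ∑ c ∈ Finset.range 41, C (Mt F1 F2 42 (c + 1)) * P (c + 1) =
        -(∑ c ∈ Finset.range 41, C (hs F1 44 (42 - c)) * (X ^ c * (X - C (-F1.coeff (44 - 1))))) := by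
      rw [← Finset.sum_neg_distrib]
      refine Finset.sum_congr rfl fun c hc => ?_
      have hc' := Finset.mem_range.1 hc
      rw [P_low_10300 F1 F2 P P0 Ps c (by omega)]
      have e5 : Mt F1 F2 42 (c + 1) = -hs F1 44 (42 - c) := by
        rcases Nat.lt_or_ge c 40 with h | h
        · rw [Mt_34_10300 F1 F2 (c + 1) (by omega)]
          congr 2
          omega
        · have hc32 : c = 40 := by omega
          subst hc32
          rw [Mt_zero_10300 F1 F2 42 41 (by omega) (by omega) (by omega) (by omega) (by omega)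
            (by omega) (by omega)]
          show (0:ℝ) = -hs F1 44 2
          rw [hh2, neg_zero]
      rw [e5, map_neg]
      ring
    have e8 : C (-hs F1 44 (43 - 0)) = -C (hs F1 44 (42 + 1)) := map_neg _ _
    rw [e4, P0, e8]
    ring
  have e6 : hs F1 44 (42 - 41) = 0 := hh1
  have e7 : hs F1 44 (42 - 42) = 1 := rfl
  rw [e1, e2, e3, Finset.sum_range_succ _ 42, Finset.sum_range_succ _ 41, e6, e7, map_zero, map_one]
  have e9 : (X : ℝ[X]) ^ 42 = X * X ^ 41 := by ring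
  have e10 : (44:ℕ) - 1 = 43 := rfl
  rw [e9, e10]
  generalize (∑ c ∈ Finset.range 41, C (hs F1 44 (42 - c)) * (X ^ c * (X - C (-F1.coeff 43)))) = Sg
  ring

theorem P_36_10300 (F1 F2 : ℝ[X]) (P : ℕ → ℝ[X]) (P0 : P 0 = 1)
    (Ps : ∀ m, P (m + 1) = (X - C (Mt F1 F2 m m)) * P m -
      ∑ c ∈ Finset.range m, C (Mt F1 F2 m c) * P c) (hc1 : F1.coeff 44 = 1) (hc2 : F1.coeff 42 = 0)
    (hd : F1.natDegree = 44) : P 44 = F1 := by
  have h1 := TT_succ_10300 F1 44 43
  have h2 := TT_self_10300 F1 44 hd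
  rw [show (44:ℕ) = 43 + 1 from rfl, Ps, P_35_10300 F1 F2 P P0 Ps hc1 hc2,
    Finset.sum_eq_single 0]
  · have e1 : Mt F1 F2 43 43 = 0 := Mt_zero_10300 F1 F2 43 43 (by omega) (by omega) (by omega)
      (by omega) (by omega) (by omega) (by omega)
    have e2 : Mt F1 F2 43 0 = -F1.coeff 0 := by simp [Mt]
    rw [e1, e2, P0, map_zero, map_neg]
    conv_rhs => rw [← h2]
    rw [h1]
    show (X - 0) * TT_10300 F1 44 43 - -C (F1.coeff 0) * 1 =
      X * TT_10300 F1 44 43 + C (F1.coeff 0)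
    ring
  · intro c hc hc0
    have hc' := Finset.mem_range.1 hc
    rw [Mt_zero_10300 F1 F2 43 c (by omega) (by omega) (by omega) (by omega) (by omega) (by omega)
      (by omega), map_zero, zero_mul]
  · intro h0
    exact absurd (Finset.mem_range.2 (by norm_num)) h0

theorem P_mid_10300 (F1 F2 : ℝ[X]) (P : ℕ → ℝ[X]) (P0 : P 0 = 1)
    (Ps : ∀ m, P (m + 1) = (X - C (Mt F1 F2 m m)) * P m -
      ∑ c ∈ Finset.range m, C (Mt F1 F2 m c) * P c) (hc1 : F1.coeff 44 = 1) (hc2 : F1.coeff 42 = 0)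
    (hd : F1.natDegree = 44) (c : ℕ) (hc : c ≤ 43) :
    P (45 + c) = X ^ c * (X - C (-F2.coeff 45)) * F1 := by
  have h1 : P 45 = (X - C (-F2.coeff 45)) * F1 := by
    rw [show (45:ℕ) = 44 + 1 from rfl, Ps, P_36_10300 F1 F2 P P0 Ps hc1 hc2 hd,
      Finset.sum_eq_zero, sub_zero]
    · have : Mt F1 F2 44 44 = -F2.coeff 45 := by simp [Mt]
      rw [this]
    · intro j hj
      have hj' := Finset.mem_range.1 hj
      rw [Mt_zero_10300 F1 F2 44 j (by omega) (by omega) (by omega) (by omega) (by omega)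
        (by omega) (by omega), map_zero, zero_mul]
  rw [shift_10300 (Mt F1 F2) P Ps 45 c, h1, mul_assoc]
  intro m hm hm' j hj
  exact Mt_zero_10300 F1 F2 m j (by omega) (by omega) (by omega) (by omega) (by omega) (by omega)
    (by omega)

theorem P_69_10300 (F1 F2 : ℝ[X]) (P : ℕ → ℝ[X]) (P0 : P 0 = 1)
    (Ps : ∀ m, P (m + 1) = (X - C (Mt F1 F2 m m)) * P m -
      ∑ c ∈ Finset.range m, C (Mt F1 F2 m c) * P c) (hc1 : F1.coeff 44 = 1) (hc2 : F1.coeff 42 = 0)
    (hd : F1.natDegree = 44) (hc3 : F2.coeff 46 = 1) :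
    P 89 = F1 * TT_10300 F2 46 45 + C (F2.coeff 0) * TT_10300 F1 44 43 := by
  have hh1 : hs F2 46 1 = 0 := by
    show -F2.coeff (46 - 1) * 1 + F2.coeff (46 - (0 + 1)) = 0
    norm_num
  rw [show (89:ℕ) = 88 + 1 from rfl, Ps, show (45:ℕ) = 44 + 1 from rfl,
    horner'_10300 F2 46 hc3 44]
  have e1 : Mt F1 F2 88 88 = 0 := Mt_zero_10300 F1 F2 88 88 (by omega) (by omega) (by omega)
    (by omega) (by omega) (by omega) (by omega)
  have e2 : P 88 = X ^ 43 * (X - C (-F2.coeff 45)) * F1 :=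
    P_mid_10300 F1 F2 P P0 Ps hc1 hc2 hd 43 le_rfl
  have e3 : ∑ c ∈ Finset.range 88, C (Mt F1 F2 88 c) * P c =
      -(C (F2.coeff 0) * TT_10300 F1 44 43) - C (hs F2 46 (44 + 1)) * F1 -
      (∑ c ∈ Finset.range 43, C (hs F2 46 (44 - c)) * (X ^ c * (X - C (-F2.coeff (46 - 1))))) * F1
      := by
    rw [show (88:ℕ) = 45 + 43 from rfl, Finset.sum_range_add, Finset.sum_range_succ,
      Finset.sum_range_succ]
    have f1 : ∑ c ∈ Finset.range 43, C (Mt F1 F2 (45 + 43) c) * P c = 0 := by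
      refine Finset.sum_eq_zero fun c hc => ?_
      have hc' := Finset.mem_range.1 hc
      rw [Mt_zero_10300 F1 F2 (45 + 43) c (by omega) (by omega) (by omega) (by omega) (by omega)
        (by omega) (by omega), map_zero, zero_mul]
    have f2 : Mt F1 F2 (45 + 43) 43 = -F2.coeff 0 := by simp [Mt]
    have f3 : Mt F1 F2 (45 + 43) 44 = -hs F2 46 (44 + 1) := Mt_68_10300 F1 F2 44 (by omega)
      (by omega)
    have f4 : ∑ c ∈ Finset.range 43, C (Mt F1 F2 (45 + 43) (45 + c)) *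
        P (45 + c) = -((∑ c ∈ Finset.range 43, C (hs F2 46 (44 - c)) *
          (X ^ c * (X - C (-F2.coeff (46 - 1))))) * F1) := by
      rw [Finset.sum_mul, ← Finset.sum_neg_distrib]
      refine Finset.sum_congr rfl fun c hc => ?_
      have hc' := Finset.mem_range.1 hc
      rw [P_mid_10300 F1 F2 P P0 Ps hc1 hc2 hd c (by omega)]
      have f5 : Mt F1 F2 (45 + 43) (45 + c) = -hs F2 46 (44 - c) := by
        have := Mt_68_10300 F1 F2 (45 + c) (by omega) (by omega)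
        rw [show 45 + 43 = 88 from rfl, this]
        congr 2
        omega
      rw [f5, map_neg]
      ring
    rw [f1, f2, f3, f4, P_35_10300 F1 F2 P P0 Ps hc1 hc2, P_36_10300 F1 F2 P P0 Ps hc1 hc2 hd, map_neg, map_neg]
    ring
  have e6 : hs F2 46 (44 - 43) = 0 := hh1
  have e7 : hs F2 46 (44 - 44) = 1 := rfl
  rw [e1, e2, e3, Finset.sum_range_succ _ 44, Finset.sum_range_succ _ 43, e6, e7, map_zero, map_one]
  have e9 : (X : ℝ[X]) ^ 44 = X * X ^ 43 := by ring
  have e10 : (46:ℕ) - 1 = 45 := rfl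
  rw [e9, e10]
  generalize (∑ c ∈ Finset.range 43, C (hs F2 46 (44 - c)) * (X ^ c * (X - C (-F2.coeff 45)))) = Sg
  ring

theorem sign_10300 (F1 F2 : ℝ[X]) (n1 : nice1 F1) (n2 : nice2 F2) (i j : ℕ) :
    SignType.sign (Mt F1 F2 i j) = patS i j := by
  obtain ⟨-, a1, a2, a3⟩ := n1
  obtain ⟨b1, b2, b3⟩ := n2
  by_cases h1 : j = i + 1
  · unfold Mt patS
    rw [if_pos h1, if_pos h1]
    exact sign_one
  by_cases h2 : i = 0 ∧ j = 0
  · unfold Mt patS
    rw [if_neg h1, if_pos h2, if_neg h1, if_pos h2]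
    exact sign_pos (neg_pos.2 a1)
  by_cases h3 : i = 42 ∧ j ≤ 40
  · unfold Mt patS
    rw [if_neg h1, if_neg h2, if_pos h3, if_neg h1, if_neg h2, if_pos h3]
    exact sign_neg (neg_neg_iff_pos.2 (a3 _ (by omega) (by omega)))
  by_cases h4 : i = 43 ∧ j = 0
  · unfold Mt patS
    rw [if_neg h1, if_neg h2, if_neg h3, if_pos h4, if_neg h1, if_neg h2, if_neg h3, if_pos h4]
    exact sign_neg (neg_neg_iff_pos.2 a2)
  by_cases h5 : i = 44 ∧ j = 44
  · unfold Mt patS
    rw [if_neg h1, if_neg h2, if_neg h3, if_neg h4, if_pos h5, if_neg h1, if_neg h2, if_neg h3,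
      if_neg h4, if_pos h5]
    exact sign_neg (neg_neg_iff_pos.2 b1)
  by_cases h6 : i = 88 ∧ 44 ≤ j ∧ j ≤ 87
  · unfold Mt patS
    rw [if_neg h1, if_neg h2, if_neg h3, if_neg h4, if_neg h5, if_pos h6, if_neg h1, if_neg h2,
      if_neg h3, if_neg h4, if_neg h5, if_pos h6]
    have h := b3 (89 - j) (by omega) (by omega)
    by_cases hj : j % 2 = 1
    · have he : Even (89 - j) := by rw [Nat.even_iff]; omega
      rw [he.neg_one_pow, one_mul] at h
      rw [if_pos hj]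
      exact sign_neg (neg_neg_iff_pos.2 h)
    · have he : Odd (89 - j) := by rw [Nat.odd_iff]; omega
      rw [he.neg_one_pow, neg_one_mul] at h
      rw [if_neg hj]
      exact sign_pos h
  by_cases h7 : i = 88 ∧ j = 43
  · unfold Mt patS
    rw [if_neg h1, if_neg h2, if_neg h3, if_neg h4, if_neg h5, if_neg h6, if_pos h7, if_neg h1,
      if_neg h2, if_neg h3, if_neg h4, if_neg h5, if_neg h6, if_pos h7]
    exact sign_neg (neg_neg_iff_pos.2 b2)
  rw [Mt_zero_10300 F1 F2 i j h1 h2 h3 h4 h5 h6 h7]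
  unfold patS
  rw [if_neg h1, if_neg h2, if_neg h3, if_neg h4, if_neg h5, if_neg h6, if_neg h7]
  exact sign_zero

theorem realise
    (hess_charpoly : ∀ (n : ℕ) (M : ℕ → ℕ → ℝ), (∀ i, M i (i + 1) = 1) →
      (∀ i j, i + 1 < j → M i j = 0) →
      (Matrix.of (fun i j : Fin (n + 1) => M i j)).charpoly = Pool.Agent.Helper993.TwoN.hess M (n + 1))
    (p F1 F2 : ℝ[X]) (hp : p.Monic) (hpd : p.natDegree = 89)
    (h1 : F1.Monic) (d1 : F1.natDegree = 44) (h2 : F2.Monic) (d2 : F2.natDegree = 46) (K : ℝ)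
    (h : X * p + C K = F1 * F2) (n1 : nice1 F1) (n2 : nice2 F2) :
    ∃ A : Matrix (Fin 89) (Fin 89) ℝ, (∀ i j, SignType.sign (A i j) = patS i j) ∧
      A.charpoly = p := by
  have hc1 : F1.coeff 44 = 1 := by rw [← d1]; exact h1
  have hc3 : F2.coeff 46 = 1 := by rw [← d2]; exact h2
  refine ⟨Matrix.of (fun i j : Fin 89 => Mt F1 F2 i j), ?_, ?_⟩
  · intro i j
    rw [Matrix.of_apply, sign_10300 F1 F2 n1 n2]
  · have e1 := hess_charpoly 88 (Mt F1 F2) (fun i => by simp [Mt]) (fun i j hij =>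
      Mt_zero_10300 F1 F2 i j (by omega) (by omega) (by omega) (by omega) (by omega) (by omega)
        (by omega))
    refine Eq.trans e1 ?_
    show Pool.Agent.Helper993.TwoN.hess (Mt F1 F2) 89 = p
    have P0 : Pool.Agent.Helper993.TwoN.hess (Mt F1 F2) 0 = 1 := by rw [Pool.Agent.Helper993.TwoN.hess]
    have Ps := hess_succ_10300 (Mt F1 F2)
    rw [P_69_10300 F1 F2 (Pool.Agent.Helper993.TwoN.hess (Mt F1 F2)) P0 Ps hc1 n1.1 d1 hc3]
    have f1 : X * TT_10300 F1 44 43 + C (F1.coeff 0) = F1 := by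
      have a1 := TT_succ_10300 F1 44 43
      have a2 := TT_self_10300 F1 44 d1
      rw [← a1]
      exact a2
    have f2 : X * TT_10300 F2 46 45 + C (F2.coeff 0) = F2 := by
      have a1 := TT_succ_10300 F2 46 45
      have a2 := TT_self_10300 F2 46 d2
      rw [← a1]
      exact a2
    have hK : K = F1.coeff 0 * F2.coeff 0 := by
      have := congrArg (fun q : ℝ[X] => q.coeff 0) h
      simp only [coeff_add, mul_coeff_zero, coeff_X_zero, zero_mul, coeff_C_zero, zero_add] at this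
      exact this
    have hX : X * (F1 * TT_10300 F2 46 45 + C (F2.coeff 0) * TT_10300 F1 44 43) = X * p := by
      have g1 : X * p = F1 * F2 - C K := by rw [← h]; ring
      rw [g1, hK, map_mul]
      have g2 : X * TT_10300 F1 44 43 = F1 - C (F1.coeff 0) := by
        rw [eq_sub_iff_add_eq]; exact f1
      have g3 : X * TT_10300 F2 46 45 = F2 - C (F2.coeff 0) := by
        rw [eq_sub_iff_add_eq]; exact f2
      calc X * (F1 * TT_10300 F2 46 45 + C (F2.coeff 0) * TT_10300 F1 44 43) =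
          F1 * (X * TT_10300 F2 46 45) + C (F2.coeff 0) * (X * TT_10300 F1 44 43) := by ring
        _ = F1 * (F2 - C (F2.coeff 0)) + C (F2.coeff 0) * (F1 - C (F1.coeff 0)) := by rw [g2, g3]
        _ = _ := by ring
    exact mul_left_cancel₀ X_ne_zero hX

end Pool.Agent.K1H10.SP.A1b
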