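import Mathlib
import Pool.Agent.K1H10.SP.Defs

set_option autoImplicit false

namespace Pool.Agent.K1H10.SP.A2

open Pool.Agent.K1H10.SP

/-- The sign pattern of order `89`. -/
def SS : Matrix (Fin 89) (Fin 89) SignType := fun i j => patS i.val j.val

theorem SS_card' : (Finset.univ.filter (fun p : Fin 89 × Fin 89 => SS p.1 p.2 ≠ 0)).card = 177 := by
  decide +kernel

theorem SS_card : Set.ncard {p : Fin 89 × Fin 89 | SS p.1 p.2 ≠ 0} = 177 := by
  have h : {p : Fin 89 × Fin 89 | SS p.1 p.2 ≠ 0} =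
      ((Finset.univ.filter (fun p : Fin 89 × Fin 89 => SS p.1 p.2 ≠ 0) : Finset _) : Set _) := by
    ext p
    simp
  rw [h, Set.ncard_coe_finset, SS_card']

theorem SS_step (i : ℕ) (h : i + 1 < 89) :
    Relation.ReflTransGen (fun a b : Fin 89 => SS a b ≠ 0) ⟨i, by omega⟩ ⟨i + 1, h⟩ := by
  refine Relation.ReflTransGen.single ?_
  simp [SS, patS]

theorem SS_up (i : ℕ) (k : ℕ) (h : i + k < 89) :
    Relation.ReflTransGen (fun a b : Fin 89 => SS a b ≠ 0) ⟨i, by omega⟩ ⟨i + k, h⟩ := by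
  induction k with
  | zero => exact Relation.ReflTransGen.refl
  | succ k ih => exact (ih (by omega)).trans (SS_step (i + k) h)

theorem SS_up' (i j : ℕ) (hij : i ≤ j) (h : j < 89) :
    Relation.ReflTransGen (fun a b : Fin 89 => SS a b ≠ 0) ⟨i, by omega⟩ ⟨j, h⟩ := by
  obtain ⟨k, rfl⟩ := Nat.exists_eq_add_of_le hij
  exact SS_up i k h

theorem SS_wrap : Relation.ReflTransGen (fun a b : Fin 89 => SS a b ≠ 0)
    ⟨88, by omega⟩ ⟨0, by omega⟩ := by
  refine Relation.ReflTransGen.trans (b := ⟨43, by omega⟩) (Relation.ReflTransGen.single ?_)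
    (Relation.ReflTransGen.single ?_)
  · simp [SS, patS]
  · simp [SS, patS]

theorem SS_conn (i j : Fin 89) : Relation.ReflTransGen (fun a b : Fin 89 => SS a b ≠ 0) i j := by
  obtain ⟨i, hi⟩ := i
  obtain ⟨j, hj⟩ := j
  exact ((SS_up' i 88 (by omega) (by omega)).trans SS_wrap).trans (SS_up' 0 j (by omega) hj)

theorem SS_classes : Set.ncard (Set.range (fun i : Fin 89 =>
    {j : Fin 89 | Relation.ReflTransGen (fun a b : Fin 89 => SS a b ≠ 0) i j ∧
      Relation.ReflTransGen (fun a b : Fin 89 => SS a b ≠ 0) j i})) = 1 := by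
  have h : (fun i : Fin 89 =>
    {j : Fin 89 | Relation.ReflTransGen (fun a b : Fin 89 => SS a b ≠ 0) i j ∧
      Relation.ReflTransGen (fun a b : Fin 89 => SS a b ≠ 0) j i}) = fun _ => Set.univ := by
    funext i
    ext j
    simp only [Set.mem_setOf_eq, Set.mem_univ, iff_true]
    exact ⟨SS_conn i j, SS_conn j i⟩
  rw [h, Set.range_const, Set.ncard_singleton]

end Pool.Agent.K1H10.SP.A2
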