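import Mathlib
import Pool.Agent.K1H10.SP.Defs

set_option autoImplicit false

namespace Pool.Agent.K1H10.SP

theorem bd_pos (j : ℕ) : 0 < bd j := by
  unfold bd bdI
  split_ifs <;> norm_num

theorem bd_nonneg (j : ℕ) : 0 ≤ bd j := (bd_pos j).le

theorem sum_bd : ∑ j ∈ Finset.Icc 1 89, bd j = 580 / 1000000 := by
  unfold bd
  rw [← Finset.sum_div, ← Nat.cast_sum]
  have : ∑ j ∈ Finset.Icc 1 89, bdI j = 580 := by decide +kernel
  rw [this]
  norm_num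

theorem sum_bd_sq : ∑ j ∈ Finset.Icc 1 89, bd j ^ 2 = 4500 / 10 ^ 12 := by
  have h : ∀ j ∈ Finset.Icc 1 89, bd j ^ 2 = ((bdI j ^ 2 : ℕ) : ℝ) / 10 ^ 12 := by
    intro j _
    unfold bd
    push_cast
    ring
  rw [Finset.sum_congr rfl h, ← Finset.sum_div, ← Nat.cast_sum]
  have : ∑ j ∈ Finset.Icc 1 89, bdI j ^ 2 = 4500 := by decide +kernel
  rw [this]
  norm_num

theorem sum_wt_sq : ∑ j ∈ Finset.Icc 1 89, (((90 - j : ℕ) : ℝ) * bd j) ^ 2 =
    10860000 / 10 ^ 12 := by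
  have h : ∀ j ∈ Finset.Icc 1 89, (((90 - j : ℕ) : ℝ) * bd j) ^ 2 =
      ((((90 - j) * bdI j) ^ 2 : ℕ) : ℝ) / 10 ^ 12 := by
    intro j _
    unfold bd
    push_cast
    ring
  rw [Finset.sum_congr rfl h, ← Finset.sum_div, ← Nat.cast_sum]
  have : ∑ j ∈ Finset.Icc 1 89, ((90 - j) * bdI j) ^ 2 = 10860000 := by decide +kernel
  rw [this]
  norm_num

end Pool.Agent.K1H10.SP
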