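import Mathlib
import Pool.Agent.K1H10.SP.Bd

set_option autoImplicit false


namespace Pool.Agent.K1H10.SP.B3

open Polynomial
open Pool.Agent.K1H10.SP

theorem norm_w (a : ℕ) : ‖w a‖ = 1 := by
  unfold w
  exact Complex.norm_exp_ofReal_mul_I _

theorem norm_xi1 (e : ℕ) (ρ : ℕ → ℝ) (a : ℕ) : ‖xi1 e ρ (w a)‖ = ‖r ρ (w a)‖ / 90 := by
  unfold xi1
  rw [norm_div, norm_mul, norm_mul, norm_neg, norm_pow, norm_neg, norm_one, one_pow, one_mul,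
    norm_w, one_mul]
  norm_num

theorem sum_est
    (parseval : ∀ (e : ℕ), e < 2 → ∀ (α : ℕ → ℝ),
      ∑ a ∈ PAR e, ‖∑ j ∈ Finset.Icc 1 89, (α j : ℂ) * (w a) ^ (90 - j)‖ ^ 2
      = 90 * ∑ j ∈ Finset.Icc 1 89, (α j) ^ 2)
    (root_est : ∀ (e : ℕ), e < 2 → ∀ (ρ : ℕ → ℝ), Box ρ → ∀ (ω z : ℂ),
      ω ^ 90 = (-1) ^ e → IsRoot' e ρ ω z →
      ‖z - ω‖ ≤ 51 / 50 * ‖xi1 e ρ ω‖ ∧
      ‖z - ω - xi1 e ρ ω‖ ≤ 1 / 90 * ‖r' ρ ω‖ * ‖z - ω‖ + 45 * ‖z - ω‖ ^ 2)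
    (w_pow : ∀ (e a : ℕ), a ∈ PAR e → (w a) ^ 90 = (-1) ^ e)
    (e : ℕ) (he : e < 2) (ρ : ℕ → ℝ) (hρ : Box ρ) (z : ℕ → ℂ)
    (hz : ∀ a ∈ PAR e, IsRoot' e ρ (w a) (z a)) :
    ∑ a ∈ PAR e, ‖z a - w a‖ ^ 2 ≤ 53 / 10 ^ 12 ∧
    ∑ a ∈ PAR e, ‖z a - w a - xi1 e ρ (w a)‖ ≤ 5 / 10 ^ 9 := by
  have hest : ∀ a ∈ PAR e, ‖z a - w a‖ ≤ 51 / 50 * ‖xi1 e ρ (w a)‖ ∧
      ‖z a - w a - xi1 e ρ (w a)‖ ≤ 1 / 90 * ‖r' ρ (w a)‖ * ‖z a - w a‖ + 45 * ‖z a - w a‖ ^ 2 :=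
    fun a ha => root_est e he ρ hρ (w a) (z a) (w_pow e a ha) (hz a ha)
  -- the sum of the squares of `ρ`
  have hρ2 : ∑ j ∈ Finset.Icc 1 89, (ρ j) ^ 2 ≤ 4500 / 10 ^ 12 := by
    rw [← sum_bd_sq]
    apply Finset.sum_le_sum
    intro j hj
    rw [← sq_abs (ρ j)]
    exact pow_le_pow_left₀ (abs_nonneg _) (hρ j hj) 2
  -- first part
  have hA : ∑ a ∈ PAR e, ‖z a - w a‖ ^ 2 ≤ 53 / 10 ^ 12 := by
    have h1 : ∀ a ∈ PAR e, ‖z a - w a‖ ^ 2 ≤ (51 / 50 / 90) ^ 2 * ‖r ρ (w a)‖ ^ 2 := by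
      intro a ha
      have h2 := (hest a ha).1
      rw [norm_xi1] at h2
      have h3 : ‖z a - w a‖ ≤ 51 / 50 / 90 * ‖r ρ (w a)‖ := by
        calc ‖z a - w a‖ ≤ 51 / 50 * (‖r ρ (w a)‖ / 90) := h2
          _ = 51 / 50 / 90 * ‖r ρ (w a)‖ := by ring
      rw [← mul_pow]
      exact pow_le_pow_left₀ (norm_nonneg _) h3 2
    have h2 := parseval e he ρ
    calc ∑ a ∈ PAR e, ‖z a - w a‖ ^ 2
        ≤ ∑ a ∈ PAR e, (51 / 50 / 90) ^ 2 * ‖r ρ (w a)‖ ^ 2 := Finset.sum_le_sum h1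
      _ = (51 / 50 / 90) ^ 2 * ∑ a ∈ PAR e, ‖r ρ (w a)‖ ^ 2 := by rw [Finset.mul_sum]
      _ = (51 / 50 / 90) ^ 2 * (90 * ∑ j ∈ Finset.Icc 1 89, (ρ j) ^ 2) := by
          rw [← h2]
          rfl
      _ ≤ (51 / 50 / 90) ^ 2 * (90 * (4500 / 10 ^ 12)) := by
          gcongr
      _ ≤ 53 / 10 ^ 12 := by norm_num
  refine ⟨hA, ?_⟩
  -- the derivative
  have hB : ∑ a ∈ PAR e, ‖r' ρ (w a)‖ ^ 2 ≤ 90 * (10860000 / 10 ^ 12) := by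
    have h1 : ∀ a ∈ PAR e, ‖r' ρ (w a)‖ ^ 2 =
        ‖∑ j ∈ Finset.Icc 1 89, (((((90 - j : ℕ) : ℝ) * ρ j : ℝ)) : ℂ) * (w a) ^ (90 - j)‖ ^ 2 := by
      intro a _
      have h2 : w a * r' ρ (w a) =
          ∑ j ∈ Finset.Icc 1 89, (((((90 - j : ℕ) : ℝ) * ρ j : ℝ)) : ℂ) * (w a) ^ (90 - j) := by
        unfold r'
        rw [Finset.mul_sum]
        apply Finset.sum_congr rfl
        intro j hj
        rw [Finset.mem_Icc] at hj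
        have h3 : 90 - j = (89 - j) + 1 := by omega
        have h4 : (w a) ^ (90 - j) = w a * (w a) ^ (89 - j) := by
          rw [h3, pow_succ]
          ring
        rw [h4]
        push_cast
        ring
      rw [← h2, norm_mul, norm_w, one_mul]
    rw [Finset.sum_congr rfl h1, parseval e he (fun j => ((90 - j : ℕ) : ℝ) * ρ j), ← sum_wt_sq]
    have h5 : ∑ j ∈ Finset.Icc 1 89, (((90 - j : ℕ) : ℝ) * ρ j) ^ 2 ≤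
        ∑ j ∈ Finset.Icc 1 89, (((90 - j : ℕ) : ℝ) * bd j) ^ 2 := by
      apply Finset.sum_le_sum
      intro j hj
      rw [mul_pow, mul_pow]
      apply mul_le_mul_of_nonneg_left _ (sq_nonneg _)
      rw [← sq_abs (ρ j)]
      exact pow_le_pow_left₀ (abs_nonneg _) (hρ j hj) 2
    linarith
  -- Cauchy-Schwarz
  have hCS : (∑ a ∈ PAR e, ‖r' ρ (w a)‖ * ‖z a - w a‖) ^ 2 ≤
      (∑ a ∈ PAR e, ‖r' ρ (w a)‖ ^ 2) * ∑ a ∈ PAR e, ‖z a - w a‖ ^ 2 :=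
    Finset.sum_mul_sq_le_sq_mul_sq _ _ _
  have hC : (∑ a ∈ PAR e, ‖r' ρ (w a)‖ * ‖z a - w a‖) ≤ 23 / 10 ^ 8 := by
    have h1 : (∑ a ∈ PAR e, ‖r' ρ (w a)‖ * ‖z a - w a‖) ^ 2 ≤ (23 / 10 ^ 8) ^ 2 := by
      calc (∑ a ∈ PAR e, ‖r' ρ (w a)‖ * ‖z a - w a‖) ^ 2
          ≤ (∑ a ∈ PAR e, ‖r' ρ (w a)‖ ^ 2) * ∑ a ∈ PAR e, ‖z a - w a‖ ^ 2 := hCS
        _ ≤ (90 * (10860000 / 10 ^ 12)) * (53 / 10 ^ 12) := by
            apply mul_le_mul hB hA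
            · exact Finset.sum_nonneg fun a _ => sq_nonneg _
            · norm_num
        _ ≤ (23 / 10 ^ 8) ^ 2 := by norm_num
    exact le_of_sq_le_sq h1 (by norm_num)
  calc ∑ a ∈ PAR e, ‖z a - w a - xi1 e ρ (w a)‖
      ≤ ∑ a ∈ PAR e, (1 / 90 * ‖r' ρ (w a)‖ * ‖z a - w a‖ + 45 * ‖z a - w a‖ ^ 2) :=
        Finset.sum_le_sum fun a ha => (hest a ha).2
    _ = 1 / 90 * (∑ a ∈ PAR e, ‖r' ρ (w a)‖ * ‖z a - w a‖) +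
        45 * ∑ a ∈ PAR e, ‖z a - w a‖ ^ 2 := by
        rw [Finset.sum_add_distrib, Finset.mul_sum, Finset.mul_sum]
        congr 1
        apply Finset.sum_congr rfl
        intro a _
        ring
    _ ≤ 1 / 90 * (23 / 10 ^ 8) + 45 * (53 / 10 ^ 12) := by gcongr
    _ ≤ 5 / 10 ^ 9 := by norm_num

end Pool.Agent.K1H10.SP.B3
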