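import Mathlib
import Pool.Agent.K1H10.SP.Defs

set_option autoImplicit false


namespace Pool.Agent.K1H10.SP.B7c

open Polynomial
open Pool.Agent.K1H10.SP

theorem full_prod_aux {M : Type*} [CommMonoid M] (e : ℕ) (U : Finset ℕ) (pm : Bool)
    (hU : U ⊆ UP e) (f : ℕ → M) :
    ∏ a ∈ full U pm, f a = (∏ a ∈ U, f a * f (180 - a)) * (if pm then f 0 * f 90 else 1) := by
  have hb : ∀ a ∈ U, 0 < a ∧ a < 90 := by
    intro a ha
    have h := Finset.mem_filter.1 (hU ha)
    exact Finset.mem_Ioo.1 h.1
  have h1 : Disjoint U (U.image (fun a => 180 - a)) := by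
    rw [Finset.disjoint_left]
    intro a ha ha'
    obtain ⟨b, hb', hab⟩ := Finset.mem_image.1 ha'
    have h2 := hb a ha
    have h3 := hb b hb'
    omega
  have h2 : Set.InjOn (fun a => 180 - a) (U : Set ℕ) := by
    intro a ha b hb' hab
    have h3 := hb a ha
    have h4 := hb b hb'
    simp only at hab
    omega
  have h3 : ∏ a ∈ U ∪ U.image (fun a => 180 - a), f a = ∏ a ∈ U, f a * f (180 - a) := by
    rw [Finset.prod_union h1, Finset.prod_image h2, Finset.prod_mul_distrib]
  cases pm with
  | false => simp [full, h3]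
  | true =>
    have h4 : Disjoint (U ∪ U.image (fun a => 180 - a)) ({0, 90} : Finset ℕ) := by
      rw [Finset.disjoint_left]
      intro a ha ha'
      simp only [Finset.mem_insert, Finset.mem_singleton] at ha'
      rcases Finset.mem_union.1 ha with h | h
      · have := hb a h
        omega
      · obtain ⟨b, hb', hab⟩ := Finset.mem_image.1 h
        have := hb b hb'
        omega
    simp only [full, if_true]
    rw [Finset.prod_union h4, h3, Finset.prod_pair (by norm_num)]

theorem full_sum_aux (e : ℕ) (U : Finset ℕ) (pm : Bool)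
    (hU : U ⊆ UP e) (f : ℕ → ℂ) :
    ∑ a ∈ full U pm, f a = (∑ a ∈ U, (f a + f (180 - a))) + (if pm then f 0 + f 90 else 0) := by
  have h := full_prod_aux (M := Multiplicative ℂ) e U pm hU (fun a => Multiplicative.ofAdd (f a))
  have h2 := congrArg Multiplicative.toAdd h
  rw [toAdd_prod, toAdd_mul, toAdd_prod] at h2
  cases pm with
  | false => simpa using h2
  | true => simpa using h2

theorem w_re_aux (a : ℕ) : (w a).re = cs a := by
  rw [w, Complex.exp_ofReal_mul_I_re, cs]

theorem w_pow_aux (a m : ℕ) : (w a) ^ m = w (m * a) := by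
  rw [w, w, ← Complex.exp_nat_mul]
  congr 1
  push_cast
  ring

theorem w_zero_aux : w 0 = 1 := by
  simp [w]

theorem w_seventy_aux : w 90 = -1 := by
  rw [w, ← Complex.exp_pi_mul_I]
  congr 1
  push_cast
  field_simp

theorem FU_map (w_conj : ∀ (a : ℕ), a ≤ 180 → (starRingEnd ℂ) (w a) = w (180 - a))
    (w_norm : ∀ a : ℕ, ‖w a‖ = 1)
    (e : ℕ) (U : Finset ℕ) (pm : Bool) (hU : U ⊆ UP e) (hp : pm = true → e = 0) :
    (FU U pm).map (algebraMap ℝ ℂ) = ∏ a ∈ full U pm, (X - C (w a)) := by
  have hb : ∀ a ∈ U, 0 < a ∧ a < 90 := by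
    intro a ha
    have h := Finset.mem_filter.1 (hU ha)
    exact Finset.mem_Ioo.1 h.1
  rw [full_prod_aux e U pm hU, FU, Polynomial.map_mul, Polynomial.map_prod]
  congr 1
  · refine Finset.prod_congr rfl fun a ha => ?_
    have h1 := w_conj a (by have := hb a ha; omega)
    have h2 : w a + w (180 - a) = ((2 * cs a : ℝ) : ℂ) := by
      rw [← h1, Complex.add_conj, w_re_aux]
    have h3 : w a * w (180 - a) = 1 := by
      rw [← h1, Complex.mul_conj, Complex.normSq_eq_norm_sq, w_norm]
      norm_num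
    have h4 : (X - C (w a)) * (X - C (w (180 - a))) =
        X ^ 2 - C (w a + w (180 - a)) * X + C (w a * w (180 - a)) := by
      rw [C_add, C_mul]
      ring
    rw [h4, h2, h3]
    simp only [Polynomial.map_add, Polynomial.map_sub, Polynomial.map_mul, Polynomial.map_pow,
      Polynomial.map_X, Polynomial.map_C, Polynomial.map_one, Complex.coe_algebraMap, C_1]
  · cases pm with
    | false => simp
    | true =>
      simp only [if_true, w_zero_aux, w_seventy_aux]
      simp only [Polynomial.map_sub, Polynomial.map_pow, Polynomial.map_X, Polynomial.map_one,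
        C_1, C_neg]
      ring

theorem power_sum (w_conj : ∀ (a : ℕ), a ≤ 180 → (starRingEnd ℂ) (w a) = w (180 - a))
    (w_norm : ∀ a : ℕ, ‖w a‖ = 1)
    (e : ℕ) (U : Finset ℕ) (pm : Bool) (hU : U ⊆ UP e) (hp : pm = true → e = 0)
    (m : ℕ) : ∑ a ∈ full U pm, (w a) ^ m = ((sg U pm m : ℝ) : ℂ) := by
  have hb : ∀ a ∈ U, 0 < a ∧ a < 90 := by
    intro a ha
    have h := Finset.mem_filter.1 (hU ha)
    exact Finset.mem_Ioo.1 h.1
  rw [full_sum_aux e U pm hU, sg]
  have h0 : ∑ a ∈ U, (w a ^ m + w (180 - a) ^ m) = ((2 * ∑ a ∈ U, cs (m * a) : ℝ) : ℂ) := by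
    rw [Finset.mul_sum]
    push_cast
    refine Finset.sum_congr rfl fun a ha => ?_
    have h1 := w_conj a (by have := hb a ha; omega)
    rw [← h1, ← map_pow, Complex.add_conj, w_pow_aux, w_re_aux]
    push_cast
    ring
  rw [h0]
  cases pm with
  | false => simp
  | true =>
    simp only [if_true, w_zero_aux, w_seventy_aux]
    push_cast
    rw [one_pow]

end Pool.Agent.K1H10.SP.B7c
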