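import Mathlib
import Pool.Agent.K1H10.SP.Defs

set_option autoImplicit false


namespace Pool.Agent.K1H10.SP.B7f

open Polynomial
open Pool.Agent.K1H10.SP

theorem card_PAR10424 (e : ℕ) (he : e < 2) : (PAR e).card = 90 := by
  interval_cases e <;> rfl

theorem R_deg10424 (ρ : ℕ → ℝ) (e : ℕ) :
    ((∑ j ∈ Finset.Icc 1 89, (C (ρ j) * X ^ (90 - j) : ℝ[X])) - C ((-1) ^ e)).degree
      < ((90 : ℕ) : WithBot ℕ) := by
  have h1 : ((∑ j ∈ Finset.Icc 1 89, (C (ρ j) * X ^ (90 - j) : ℝ[X]))).natDegree ≤ 89 := by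
    apply Polynomial.natDegree_sum_le_of_forall_le
    intro j hj
    have h2 : 1 ≤ j := (Finset.mem_Icc.1 hj).1
    exact (Polynomial.natDegree_C_mul_X_pow_le _ _).trans (by omega)
  have h2 : ((∑ j ∈ Finset.Icc 1 89, (C (ρ j) * X ^ (90 - j) : ℝ[X])) - C ((-1) ^ e)).natDegree
      ≤ 89 := by
    refine (Polynomial.natDegree_sub_le _ _).trans ?_
    rw [Polynomial.natDegree_C]
    exact max_le h1 (by norm_num)
  refine lt_of_le_of_lt (Polynomial.degree_le_of_natDegree_le h2) ?_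
  exact_mod_cast (by norm_num : 89 < 90)

theorem P_eq10424 (ρ : ℕ → ℝ) (e : ℕ) : P ρ e =
    X ^ 90 + ((∑ j ∈ Finset.Icc 1 89, (C (ρ j) * X ^ (90 - j) : ℝ[X])) - C ((-1) ^ e)) := by
  unfold P
  ring

theorem P_monic10424 (ρ : ℕ → ℝ) (e : ℕ) : (P ρ e).Monic := by
  rw [P_eq10424]
  exact Polynomial.monic_X_pow_add (R_deg10424 ρ e)

theorem P_natDegree10424 (ρ : ℕ → ℝ) (e : ℕ) : (P ρ e).natDegree = 90 := by
  rw [P_eq10424]
  rw [Polynomial.natDegree_add_eq_left_of_degree_lt]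
  · exact Polynomial.natDegree_X_pow 90
  · rw [Polynomial.degree_X_pow]
    exact R_deg10424 ρ e

theorem P_eval10424 (ρ : ℕ → ℝ) (e : ℕ) (z : ℂ) :
    ((P ρ e).map (algebraMap ℝ ℂ)).eval z = z ^ 90 + r ρ z - (-1) ^ e := by
  unfold P r
  rw [Polynomial.map_sub, Polynomial.map_add, Polynomial.map_pow, Polynomial.map_X,
    Polynomial.map_sum, Polynomial.map_C, Polynomial.eval_sub, Polynomial.eval_add,
    Polynomial.eval_pow, Polynomial.eval_X, Polynomial.eval_finsetSum, Polynomial.eval_C]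
  congr 1
  · congr 1
    refine Finset.sum_congr rfl fun j _ => ?_
    rw [Polynomial.map_mul, Polynomial.map_C, Polynomial.map_pow, Polynomial.map_X,
      Polynomial.eval_mul, Polynomial.eval_C, Polynomial.eval_pow, Polynomial.eval_X]
    rfl
  · simp

theorem r_conj10424 (ρ : ℕ → ℝ) (z : ℂ) :
    r ρ ((starRingEnd ℂ) z) = (starRingEnd ℂ) (r ρ z) := by
  unfold r
  rw [map_sum]
  refine Finset.sum_congr rfl fun j _ => ?_
  rw [map_mul, Complex.conj_ofReal, map_pow]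

theorem P_prod
    (w_dist : ∀ (e a b : ℕ), a ∈ PAR e → b ∈ PAR e → a ≠ b → 1 / 100 ≤ ‖w a - w b‖)
    (e : ℕ) (he : e < 2) (ρ : ℕ → ℝ) (z : ℕ → ℂ)
    (hz : ∀ a ∈ PAR e, IsRoot' e ρ (w a) (z a)) :
    (P ρ e).map (algebraMap ℝ ℂ) = ∏ a ∈ PAR e, (X - C (z a)) := by
  have hne : ∀ a ∈ PAR e, ∀ b ∈ PAR e, a ≠ b → z a ≠ z b := by
    intro a ha b hb hab heq
    have h1 := w_dist e a b ha hb hab
    have h2 := (hz a ha).1
    have h3 := (hz b hb).1
    have h4 : w a - w b = (z b - w b) - (z a - w a) := by rw [heq]; ring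
    have h5 := norm_sub_le (z b - w b) (z a - w a)
    rw [← h4] at h5
    linarith
  have hmon : ((P ρ e).map (algebraMap ℝ ℂ)).Monic := (P_monic10424 ρ e).map _
  have hmon2 : (∏ a ∈ PAR e, (X - C (z a))).Monic :=
    Polynomial.monic_prod_of_monic _ _ fun a _ => Polynomial.monic_X_sub_C _
  have hdvd : (∏ a ∈ PAR e, (X - C (z a))) ∣ (P ρ e).map (algebraMap ℝ ℂ) := by
    apply Finset.prod_dvd_of_coprime
    · intro a ha b hb hab
      exact Polynomial.isCoprime_X_sub_C_of_isUnit_sub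
        (sub_ne_zero.2 (hne a (Finset.mem_coe.1 ha) b (Finset.mem_coe.1 hb) hab)).isUnit
    · intro a ha
      rw [Polynomial.dvd_iff_isRoot, Polynomial.IsRoot, P_eval10424, (hz a ha).2, sub_self]
  have hdeg : ((P ρ e).map (algebraMap ℝ ℂ)).natDegree
      ≤ (∏ a ∈ PAR e, (X - C (z a))).natDegree := by
    rw [(P_monic10424 ρ e).natDegree_map, P_natDegree10424,
      Polynomial.natDegree_prod_of_monic _ _ fun a _ => Polynomial.monic_X_sub_C _]
    simp only [Polynomial.natDegree_X_sub_C, Finset.sum_const, card_PAR10424 e he, smul_eq_mul,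
      mul_one]
    exact le_refl _
  exact Polynomial.eq_of_monic_of_dvd_of_natDegree_le hmon2 hmon hdvd hdeg

theorem z_conj
    (root_existsUnique : ∀ (e : ℕ), e < 2 → ∀ (ρ : ℕ → ℝ), Box ρ → ∀ (ω : ℂ),
      ω ^ 90 = (-1) ^ e → ∃! z : ℂ, IsRoot' e ρ ω z)
    (w_pow : ∀ (e a : ℕ), a ∈ PAR e → (w a) ^ 90 = (-1) ^ e)
    (e : ℕ) (he : e < 2) (ρ : ℕ → ℝ) (hρ : Box ρ) (z : ℕ → ℂ)
    (hz : ∀ a ∈ PAR e, IsRoot' e ρ (w a) (z a)) (a b : ℕ) (ha : a ∈ PAR e) (hb : b ∈ PAR e)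
    (hab : (starRingEnd ℂ) (w a) = w b) : (starRingEnd ℂ) (z a) = z b := by
  have h1 : IsRoot' e ρ (w b) ((starRingEnd ℂ) (z a)) := by
    refine ⟨?_, ?_⟩
    · rw [← hab, ← map_sub, Complex.norm_conj]
      exact (hz a ha).1
    · rw [r_conj10424, ← map_pow, ← map_add, (hz a ha).2]
      simp
  obtain ⟨y, hy, huniq⟩ := root_existsUnique e he ρ hρ (w b) (w_pow e b hb)
  rw [huniq _ h1, huniq _ (hz b hb)]

theorem FU_coeff34
    (FU_map : ∀ (e : ℕ) (U : Finset ℕ) (pm : Bool), U ⊆ UP e → (pm = true → e = 0) →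
      (FU U pm).map (algebraMap ℝ ℂ) = ∏ a ∈ full U pm, (X - C (w a)))
    (power_sum : ∀ (e : ℕ) (U : Finset ℕ) (pm : Bool), U ⊆ UP e → (pm = true → e = 0) →
      ∀ (m : ℕ), ∑ a ∈ full U pm, (w a) ^ m = ((sg U pm m : ℝ) : ℂ))
    (full_union : ∀ (e : ℕ) (U : Finset ℕ) (pm : Bool), Valid e U pm →
      full U pm ⊆ PAR e ∧ full (comp e U) (cpm e pm) = PAR e \ full U pm ∧
      (full U pm).card = 44 ∧ (full (comp e U) (cpm e pm)).card = 46)
    (coeff_top2 : ∀ (A : Finset ℕ) (n : ℕ), A.card = n + 2 → ∀ (z : ℕ → ℂ),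
      (∏ a ∈ A, (X - C (z a))).coeff n = ((∑ a ∈ A, z a) ^ 2 - ∑ a ∈ A, (z a) ^ 2) / 2)
    (e : ℕ) (U : Finset ℕ) (pm : Bool) (hV : Valid e U pm) :
    (FU U pm).coeff 42 = eta U pm := by
  obtain ⟨h1, _, h3, _⟩ := full_union e U pm hV
  have hm := FU_map e U pm hV.hU hV.hp
  have hc := congrArg (fun p => Polynomial.coeff p 42) hm
  simp only [Polynomial.coeff_map] at hc
  rw [coeff_top2 _ 42 h3 w] at hc
  have s1 := power_sum e U pm hV.hU hV.hp 1
  have s2 := power_sum e U pm hV.hU hV.hp 2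
  simp only [pow_one] at s1
  rw [s1, s2] at hc
  apply Complex.ofReal_injective
  have h4 : (algebraMap ℝ ℂ) ((FU U pm).coeff 42) = (((FU U pm).coeff 42 : ℝ) : ℂ) := rfl
  rw [h4] at hc
  rw [hc]
  unfold eta
  push_cast
  ring

end Pool.Agent.K1H10.SP.B7f
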