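import Pool.Agent.K1H10.SP.Defs

set_option autoImplicit false

/-! Integer checkers for the numerical certificate. -/

namespace Pool.Agent.K1H10.SP

/-- scale of the cosine table -/
def SC : ℕ := 2 ^ 64

/-- base of the Kronecker substitution for products -/
def BB : ℕ := 2 ^ 1600

/-- half of it -/
def HB : ℕ := 2 ^ 1599

/-- `∑_{i<n} H B^i` -/
def offs (B H : ℕ) : ℕ → ℕ
  | 0 => 0
  | n + 1 => offs B H n * B + H

/-- value at `BB` of the scaled quadratic factor -/
def quadW (c : ℤ) : ℤ := ((SC : ℤ) * (BB : ℤ) - 2 * c) * (BB : ℤ) + (SC : ℤ)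

/-- value at `BB` of the scaled product -/
def prodW (ct : ℕ → ℤ) (U : List ℕ) (pm : Bool) : ℤ :=
  (U.foldr (fun a W => quadW (ct a) * W) 1) * (if pm then (BB : ℤ) * (BB : ℤ) - 1 else 1)

/-- rounded coefficients, highest first: `[q_{cnt-1}, …, q_0]` prepended to `acc`. -/
def digsRev (k : ℕ) : ℕ → ℕ → List ℤ → List ℤ
  | 0, _, acc => acc
  | cnt + 1, n, acc =>
    digsRev k cnt (n / BB) (((((n % BB) / 2 ^ k : ℕ) : ℤ) - ((HB / 2 ^ k : ℕ) : ℤ)) :: acc)

/-- rounded coefficients (scale `2^40`), highest first, of the product of `len` quadratics -/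
def coefR (deg len : ℕ) (W : ℤ) : List ℤ :=
  digsRev (64 * len - 40) (deg + 1) (W + (offs BB HB (deg + 1) : ℤ)).toNat []

/-- error bound of the rounded coefficients -/
def EE : ℕ := 96468994

/-- sum of absolute values -/
def sumAbs : List ℤ → ℕ
  | [] => 0
  | q :: qs => q.natAbs + sumAbs qs

/-- bound for the perturbation of the coefficients, scale `2^40` -/
def DQ (l : List ℤ) : ℕ := 51 * (sumAbs l + 47 * EE) / 1000000 + 1 + EE

/-- bound for the perturbation of the top coefficient, scale `2^40` -/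
def DB : ℕ := 2 ^ 40 / 20000 + 1 + EE

/-- the Horner recursion with error bounds: the value number `i` has the sign given by `neg`,
the sign alternates if `alt`; the last coefficient is positive -/
def hloop (alt : Bool) (b : ℤ) (dq : ℕ) : List ℤ → Bool → ℤ → ℕ → Bool
  | q :: q' :: qs, neg, h, dh =>
    let h' := (b * h) / (2 ^ 40 : ℕ) + q
    let dh' := ((b.natAbs + DB) * dh + DB * h.natAbs) / 2 ^ 40 + dq + 3
    Nat.blt dh' (if neg then -h' else h').toNat &&
      hloop alt b dq (q' :: qs) (Bool.xor neg alt) h' dh'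
  | [q], _, _, _ => Nat.blt dq q.toNat
  | _, _, _, _ => false

/-- niceness check for the factor of degree 44; the list is `[q_44, …, q_0]` -/
def nice1L (l : List ℤ) : Bool :=
  match l with
  | _ :: q43 :: _ :: qs => Nat.blt DB (-q43).toNat && hloop false (-q43) (DQ l) qs false 0 0
  | _ => false

/-- niceness check for the factor of degree 46; the list is `[q_46, …, q_0]` -/
def nice2L (l : List ℤ) : Bool :=
  match l with
  | _ :: q45 :: qs => Nat.blt DB q45.toNat && hloop true (-q45) (DQ l) qs false 0 0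
  | _ => false

/-- the list of the complement -/
def compL (e : ℕ) (U : List ℕ) : List ℕ :=
  (List.range 90).filter (fun a => Nat.blt 0 a && Nat.beq (a % 2) e && !(U.elem a))

/-- strictly increasing -/
def incr : List ℕ → Bool
  | a :: b :: l => Nat.blt a b && incr (b :: l)
  | _ => true

/-- validity check -/
def validL (e : ℕ) (U : List ℕ) (pm : Bool) : Bool :=
  Nat.blt e 2 && U.all (fun a => Nat.blt 0 a && Nat.blt a 90 && Nat.beq (a % 2) e) && incr U &&
    Nat.beq (U.length + (if pm then 1 else 0)) 22 && (!pm || Nat.beq e 0)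

/-- full niceness check of a set -/
def niceCheck (ct : ℕ → ℤ) (e : ℕ) (U : List ℕ) (pm : Bool) : Bool :=
  nice1L (coefR 44 U.length (prodW ct U pm)) &&
  nice2L (coefR 46 (compL e U).length (prodW ct (compL e U) (cpm e pm)))

/-! ### Rows -/

/-- base of the packing of the rows -/
def B2 : ℕ := 2 ^ 192

/-- half of it -/
def H2 : ℕ := 2 ^ 191

/-- integer approximation of `2^64 sg m` -/
def gI (ct : ℕ → ℤ) (U : List ℕ) (pm : Bool) (m : ℕ) : ℤ :=
  2 * (U.foldr (fun a s => ct (m * a) + s) 0) +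
    (if pm then (if m % 2 = 0 then 2 * (SC : ℤ) else 0) else 0)

/-- integer approximation of `-90 * 2^128 * Lc j` -/
def RI (ct : ℕ → ℤ) (U : List ℕ) (pm : Bool) (j : ℕ) : ℤ :=
  gI ct U pm 1 * gI ct U pm (j - 1) - (SC : ℤ) * gI ct U pm (if j = 1 then 1 else j - 2)

/-- integer approximation of `2^129 * eta` -/
def etaI (ct : ℕ → ℤ) (U : List ℕ) (pm : Bool) : ℤ :=
  gI ct U pm 1 * gI ct U pm 1 - (SC : ℤ) * gI ct U pm 2

/-- `∑_{m<n} ct (m a) B2^m` -/
def packT (ct : ℕ → ℤ) (a : ℕ) : ℕ → ℤ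
  | 0 => 0
  | n + 1 => packT ct a n + ct (n * a) * ((B2 ^ n : ℕ) : ℤ)

/-- `∑_{m<n, m even} B2^m` -/
def packE : ℕ → ℤ
  | 0 => 0
  | n + 1 => packE n + (if n % 2 = 0 then ((B2 ^ n : ℕ) : ℤ) else 0)

/-- packed row, without sign: `∑_{j<89} RI (j+1) B2^j`; `TL a = packT ct a 89`. -/
def rowW (ct TL : ℕ → ℤ) (U : List ℕ) (pm : Bool) : ℤ :=
  let P := 2 * (U.foldr (fun a s => TL a + s) 0) + (if pm then 2 * (SC : ℤ) * packE 89 else 0)
  gI ct U pm 1 * P - (SC : ℤ) * (gI ct U pm 1 + (B2 : ℤ) * (P - gI ct U pm 88 * ((B2 ^ 88 : ℕ) : ℤ)))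

/-- upper bound constant for `2^129 / 40000000` plus the error of `etaI` -/
def CST : ℕ := 2 ^ 129 / 40000000 + 1 + 2 ^ 74

/-- packed row with the sign of `eta`, and the bound for `2^129 * (|eta| + 1/40000000)` -/
def rowS (ct TL : ℕ → ℤ) (U : List ℕ) (pm : Bool) : ℤ × ℕ :=
  if 0 < etaI ct U pm then (rowW ct TL U pm, (etaI ct U pm).natAbs + CST)
  else (-rowW ct TL U pm, (etaI ct U pm).natAbs + CST)

/-- linear combination of the packed rows -/
def combV : List (ℤ × ℕ) → ℕ → ℤ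
  | [], _ => 0
  | r :: rs, n => ((n % 2 ^ 32 : ℕ) : ℤ) * r.1 + combV rs (n / 2 ^ 32)

/-- linear combination of the bounds -/
def combH : List (ℤ × ℕ) → ℕ → ℕ
  | [], _ => 0
  | r :: rs, n => (n % 2 ^ 32) * r.2 + combH rs (n / 2 ^ 32)

/-- sum of the coefficients -/
def combS : List (ℤ × ℕ) → ℕ → ℕ
  | [], _ => 0
  | _ :: rs, n => (n % 2 ^ 32) + combS rs (n / 2 ^ 32)

/-- `2^32 (97/100)^j` rounded down -/
def TT (j : ℕ) : ℕ := 97 ^ j * 2 ^ 32 / 100 ^ j

/-- combined digit -/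
def dig2 (a b j : ℕ) : ℤ := ((a : ℤ) - (H2 : ℤ)) * 2 ^ 32 + ((b : ℤ) - (H2 : ℤ)) * (TT j : ℤ)

/-- `∑_{i<cnt} bdI (j+i) * |combined digit i|` -/
def absSum : ℕ → ℕ → ℕ → ℕ → ℕ
  | 0, _, _, _ => 0
  | cnt + 1, n, m, j => bdI j * (dig2 (n % B2) (m % B2) j).natAbs +
      absSum cnt (n / B2) (m / B2) (j + 1)

/-- the check of one vertex of the dual certificate -/
def lpCheck (rows : List (ℤ × ℕ)) (j0 : ℕ) (pos : Bool) (n : ℕ × ℕ) : Bool :=
  let N := (combV rows n.1 + (offs B2 H2 89 : ℤ)).toNat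
  let N' := (combV rows n.2 + (offs B2 H2 89 : ℤ)).toNat
  let d := dig2 (N / B2 ^ (j0 - 1) % B2) (N' / B2 ^ (j0 - 1) % B2) j0
  let x := (if pos then d else -d).toNat
  Nat.blt (2 * absSum 89 N N' 1 + 1160 * (combS rows n.1 + combS rows n.2) * 2 ^ 141 +
    90000000 * 2 ^ 32 * (combH rows n.1 + combH rows n.2)) (4 * bdI j0 * x)

end Pool.Agent.K1H10.SP
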