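import Mathlib
import Pool.Agent.K1H10.SP.Defs
import Pool.Agent.K1H10.SP.CertDefs

set_option autoImplicit false


namespace Pool.Agent.K1H10.SP.C2a

open Polynomial
open Pool.Agent.K1H10.SP

theorem offs_eq (B H n : ℕ) : offs B H n = ∑ i ∈ Finset.range n, H * B ^ i := by
  induction n with
  | zero => simp [offs]
  | succ n ih =>
    rw [Finset.sum_range_succ']
    simp only [offs, ih, pow_zero, mul_one, Finset.sum_mul]
    congr 1
    apply Finset.sum_congr rfl
    intro i _
    rw [pow_succ]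
    ring

theorem c2a_digit (B : ℕ) (hB : 0 < B) (j : ℕ) : ∀ (n : ℕ) (w : ℕ → ℕ), (∀ i, i < n → w i < B) →
    j < n → (∑ i ∈ Finset.range n, w i * B ^ i) / B ^ j % B = w j := by
  induction j with
  | zero =>
    intro n w hw hj
    obtain ⟨m, rfl⟩ : ∃ m, n = m + 1 := ⟨n - 1, by omega⟩
    rw [Finset.sum_range_succ', pow_zero, Nat.div_one]
    have h1 : ∑ i ∈ Finset.range m, w (i + 1) * B ^ (i + 1) =
        B * ∑ i ∈ Finset.range m, w (i + 1) * B ^ i := by
      rw [Finset.mul_sum]
      apply Finset.sum_congr rfl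
      intro i _
      rw [pow_succ]
      ring
    rw [h1, mul_one, Nat.mul_add_mod]
    exact Nat.mod_eq_of_lt (hw 0 hj)
  | succ j ih =>
    intro n w hw hj
    obtain ⟨m, rfl⟩ : ∃ m, n = m + 1 := ⟨n - 1, by omega⟩
    have h1 : ∑ i ∈ Finset.range (m + 1), w i * B ^ i =
        B * (∑ i ∈ Finset.range m, w (i + 1) * B ^ i) + w 0 := by
      rw [Finset.sum_range_succ', Finset.mul_sum, pow_zero, mul_one]
      congr 1
      apply Finset.sum_congr rfl
      intro i _
      rw [pow_succ]
      ring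
    rw [h1, pow_succ', ← Nat.div_div_eq_div_mul, Nat.mul_add_div hB,
      Nat.div_eq_of_lt (hw 0 (by omega)), add_zero]
    exact ih m (fun i => w (i + 1)) (fun i hi => hw (i + 1) (by omega)) (by omega)

theorem digit_sound (B H n : ℕ) (hB : B = 2 * H) (hH : 0 < H) (v : ℕ → ℤ)
    (hv : ∀ j, j < n → |v j| < H) (j : ℕ) (hj : j < n) :
    (((((∑ i ∈ Finset.range n, v i * (B : ℤ) ^ i) + (offs B H n : ℤ)).toNat / B ^ j % B : ℕ)) : ℤ)
      = v j + H := by
  have hw : ∀ i, i < n → (((v i + H).toNat : ℕ) : ℤ) = v i + H := by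
    intro i hi
    have h1 := abs_lt.1 (hv i hi)
    exact Int.toNat_of_nonneg (by omega)
  have hsum : (∑ i ∈ Finset.range n, v i * (B : ℤ) ^ i) + (offs B H n : ℤ) =
      ((∑ i ∈ Finset.range n, (v i + H).toNat * B ^ i : ℕ) : ℤ) := by
    rw [offs_eq, Nat.cast_sum, Nat.cast_sum, ← Finset.sum_add_distrib]
    apply Finset.sum_congr rfl
    intro i hi
    have h2 := hw i (Finset.mem_range.1 hi)
    rw [Nat.cast_mul, Nat.cast_mul, Nat.cast_pow, h2]
    ring
  rw [hsum, Int.toNat_natCast, c2a_digit B (by omega) j n (fun i => (v i + H).toNat) _ hj]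
  · exact hw j hj
  · intro i hi
    have h1 := abs_lt.1 (hv i hi)
    have h2 := hw i hi
    show (v i + H).toNat < B
    omega

theorem c2a_div (n B i : ℕ) : n / B / B ^ i = n / B ^ (i + 1) := by
  rw [Nat.div_div_eq_div_mul, ← pow_succ']

theorem absSum_eq (cnt n m j : ℕ) : absSum cnt n m j =
    ∑ i ∈ Finset.range cnt,
      bdI (j + i) * (dig2 (n / B2 ^ i % B2) (m / B2 ^ i % B2) (j + i)).natAbs := by
  have e1 : ∀ c n m j, absSum (c + 1) n m j =
      bdI j * (dig2 (n % B2) (m % B2) j).natAbs + absSum c (n / B2) (m / B2) (j + 1) :=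
    fun _ _ _ _ => rfl
  have e0 : ∀ n m j, absSum 0 n m j = 0 := fun _ _ _ => rfl
  generalize B2 = b at *
  induction cnt generalizing n m j with
  | zero => rw [e0]; simp
  | succ cnt ih =>
    rw [e1, ih, Finset.sum_range_succ', add_comm]
    congr 1
    · apply Finset.sum_congr rfl
      intro i _
      rw [c2a_div, c2a_div, add_assoc, add_comm 1 i]
    · rw [pow_zero, Nat.div_one, Nat.div_one, add_zero]

theorem digsRev_eq (k cnt n : ℕ) (acc : List ℤ) : digsRev k cnt n acc =
    (List.range cnt).reverse.map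
      (fun i => (((n / BB ^ i % BB / 2 ^ k : ℕ) : ℤ) - ((HB / 2 ^ k : ℕ) : ℤ))) ++ acc := by
  have e1 : ∀ c n acc, digsRev k (c + 1) n acc =
    digsRev k c (n / BB) (((((n % BB) / 2 ^ k : ℕ) : ℤ) - ((HB / 2 ^ k : ℕ) : ℤ)) :: acc) :=
    fun _ _ _ => rfl
  have e0 : ∀ n acc, digsRev k 0 n acc = acc := fun _ _ => rfl
  generalize BB = b at *
  generalize HB = h at *
  induction cnt generalizing n acc with
  | zero => rw [e0]; rfl
  | succ cnt ih =>
    rw [e1, ih, List.range_succ_eq_map, List.reverse_cons, List.map_append, List.append_assoc]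
    congr 1
    · rw [← List.map_reverse, List.map_map]
      apply List.map_congr_left
      intro i _
      simp only [Function.comp]
      rw [c2a_div]
    · simp only [List.map_cons, List.map_nil, List.singleton_append, pow_zero, Nat.div_one]

end Pool.Agent.K1H10.SP.C2a
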