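import Mathlib
import Pool.Agent.K1H10.SP.Defs
import Pool.Agent.K1H10.SP.CertDefs

set_option autoImplicit false


namespace Pool.Agent.K1H10.SP.C2b

open Polynomial
open Pool.Agent.K1H10.SP

theorem gI_sound_foldr (ct : ℕ → ℤ) (hct : ∀ m, |((ct m : ℤ) : ℝ) - 2 ^ 64 * cs m| ≤ 2)
    (m : ℕ) : ∀ U : List ℕ,
    |((U.foldr (fun a s => ct (m * a) + s) 0 : ℤ) : ℝ) -
      2 ^ 64 * (U.map (fun a => cs (m * a))).sum| ≤ 2 * (U.length : ℝ) := by
  intro U
  induction U with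
  | nil => simp
  | cons a U ih =>
    rw [List.foldr_cons, List.map_cons, List.sum_cons, List.length_cons, Int.cast_add]
    have h := hct (m * a)
    push_cast at ih ⊢
    rw [abs_le] at *
    constructor <;> linarith [h.1, h.2, ih.1, ih.2]

theorem gI_sound_pm (m : ℕ) : ((if m % 2 = 0 then 2 * (SC : ℤ) else 0 : ℤ) : ℝ) =
    2 ^ 64 * (1 + (-1) ^ m) := by
  unfold SC
  rcases Nat.even_or_odd m with h | h
  · rw [if_pos (Nat.even_iff.1 h), h.neg_one_pow]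
    push_cast
    ring
  · rw [if_neg (by rw [Nat.odd_iff.1 h]; norm_num), h.neg_one_pow]
    simp

theorem gI_sound (ct : ℕ → ℤ) (hct : ∀ m, |((ct m : ℤ) : ℝ) - 2 ^ 64 * cs m| ≤ 2) (U : List ℕ)
    (hn : U.Nodup) (hl : U.length ≤ 22) (pm : Bool) (m : ℕ) :
    |((gI ct U pm m : ℤ) : ℝ) - 2 ^ 64 * sg U.toFinset pm m| ≤ 88 := by
  have h := gI_sound_foldr ct hct m U
  have hlR : (U.length : ℝ) ≤ 22 := by exact_mod_cast hl
  unfold gI sg
  rw [List.sum_toFinset _ hn]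
  generalize (List.foldr (fun a s => ct (m * a) + s) 0 U) = A at h ⊢
  generalize (List.map (fun a => cs (m * a)) U).sum = B at h ⊢
  have e : ((2 * A + (if pm = true then (if m % 2 = 0 then 2 * (SC : ℤ) else 0) else 0) : ℤ) : ℝ) -
      2 ^ 64 * (2 * B + (if pm = true then 1 + (-1) ^ m else 0)) = 2 * ((A : ℝ) - 2 ^ 64 * B) := by
    cases pm
    · simp only [Bool.false_eq_true, if_false]
      push_cast
      ring
    · simp only [if_true]
      rw [Int.cast_add, gI_sound_pm]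
      push_cast
      ring
  rw [e, abs_mul, abs_two]
  linarith

theorem sg_le (U : List ℕ) (hn : U.Nodup) (pm : Bool) (hl : U.length + (if pm then 1 else 0) = 22)
    (m : ℕ) : |sg U.toFinset pm m| ≤ 44 := by
  unfold sg
  have h1 : |∑ a ∈ U.toFinset, cs (m * a)| ≤ U.length := by
    refine (Finset.abs_sum_le_sum_abs _ _).trans ?_
    calc ∑ a ∈ U.toFinset, |cs (m * a)| ≤ ∑ a ∈ U.toFinset, (1 : ℝ) :=
          Finset.sum_le_sum fun a _ => Real.abs_cos_le_one _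
      _ = U.toFinset.card := by simp
      _ ≤ U.length := by exact_mod_cast List.toFinset_card_le U
  have h2 : |(-1 : ℝ) ^ m| = 1 := by rw [abs_pow]; simp
  cases pm
  · simp only [Bool.false_eq_true, if_false, add_zero] at hl ⊢
    have hlR : (U.length : ℝ) = 22 := by exact_mod_cast hl
    rw [abs_mul, abs_two]
    linarith
  · simp only [if_true] at hl ⊢
    have hlR : (U.length : ℝ) + 1 = 22 := by exact_mod_cast hl
    calc |2 * ∑ a ∈ U.toFinset, cs (m * a) + (1 + (-1) ^ m)|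
        ≤ |2 * ∑ a ∈ U.toFinset, cs (m * a)| + |1 + (-1) ^ m| := abs_add_le _ _
      _ ≤ 2 * |∑ a ∈ U.toFinset, cs (m * a)| + (|1| + |(-1) ^ m|) := by
          rw [abs_mul, abs_two]
          gcongr
          exact abs_add_le _ _
      _ ≤ 44 := by rw [h2, abs_one]; linarith

theorem RI_sound_core (T s g g' s₁ g₁ g₁' : ℝ) (hT : 7744 ≤ T) (hs : |s| ≤ 3) (hg : |g| ≤ 44)
    (h1 : |s₁ - T * s| ≤ 88) (h2 : |g₁ - T * g| ≤ 88)
    (h3 : |g₁' - T * g'| ≤ 88) :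
    |s₁ * g₁ - T * g₁' - T ^ 2 * (s * g - g')| ≤ 8192 * T := by
  have hT0 : 0 < T := by linarith
  have e : s₁ * g₁ - T * g₁' - T ^ 2 * (s * g - g') =
      (s₁ - T * s) * g₁ + T * s * (g₁ - T * g) - T * (g₁' - T * g') := by ring
  have hg1 : |g₁| ≤ 88 + T * 44 := by
    have : g₁ = (g₁ - T * g) + T * g := by ring
    rw [this]
    refine (abs_add_le _ _).trans ?_
    rw [abs_mul, abs_of_pos hT0]
    have := mul_le_mul_of_nonneg_left hg hT0.le
    linarith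
  rw [e]
  have a1 : |(s₁ - T * s) * g₁| ≤ 88 * (88 + T * 44) := by
    rw [abs_mul]
    exact mul_le_mul h1 hg1 (abs_nonneg _) (by norm_num)
  have a2 : |T * s * (g₁ - T * g)| ≤ (T * 3) * 88 := by
    rw [abs_mul, abs_mul, abs_of_pos hT0]
    exact mul_le_mul (mul_le_mul_of_nonneg_left hs hT0.le) h2 (abs_nonneg _) (by positivity)
  have a3 : |T * (g₁' - T * g')| ≤ T * 88 := by
    rw [abs_mul, abs_of_pos hT0]
    exact mul_le_mul_of_nonneg_left h3 hT0.le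
  calc |(s₁ - T * s) * g₁ + T * s * (g₁ - T * g) - T * (g₁' - T * g')|
      ≤ |(s₁ - T * s) * g₁ + T * s * (g₁ - T * g)| + |T * (g₁' - T * g')| := abs_sub _ _
    _ ≤ |(s₁ - T * s) * g₁| + |T * s * (g₁ - T * g)| + |T * (g₁' - T * g')| := by
        gcongr
        exact abs_add_le _ _
    _ ≤ 8192 * T := by linarith

theorem RI_sound (ct : ℕ → ℤ) (hct : ∀ m, |((ct m : ℤ) : ℝ) - 2 ^ 64 * cs m| ≤ 2) (U : List ℕ)
    (hn : U.Nodup) (pm : Bool) (hl : U.length + (if pm then 1 else 0) = 22)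
    (hs : |sg U.toFinset pm 1| ≤ 3) (j : ℕ) :
    |((RI ct U pm j : ℤ) : ℝ) + 90 * 2 ^ 128 * Lc U.toFinset pm j| ≤ 2 ^ 77 ∧
      |RI ct U pm j| ≤ 2 ^ 140 := by
  have hl' : U.length ≤ 22 := by omega
  have k1 := gI_sound ct hct U hn hl' pm 1
  have k2 := gI_sound ct hct U hn hl' pm (j - 1)
  have k3 := gI_sound ct hct U hn hl' pm (if j = 1 then 1 else j - 2)
  have b2 := sg_le U hn pm hl (j - 1)
  have b3 := sg_le U hn pm hl (if j = 1 then 1 else j - 2)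
  have hcore := RI_sound_core (2 ^ 64) _ _ _ _ _ _ (by norm_num) hs b2 k1 k2 k3
  have hSC : ((SC : ℤ) : ℝ) = 2 ^ 64 := by unfold SC; norm_num
  have key : |((RI ct U pm j : ℤ) : ℝ) + 90 * 2 ^ 128 * Lc U.toFinset pm j| ≤ 2 ^ 77 := by
    have e : ((RI ct U pm j : ℤ) : ℝ) + 90 * 2 ^ 128 * Lc U.toFinset pm j =
        ((gI ct U pm 1 : ℤ) : ℝ) * ((gI ct U pm (j - 1) : ℤ) : ℝ) -
          2 ^ 64 * ((gI ct U pm (if j = 1 then 1 else j - 2) : ℤ) : ℝ) -
          (2 ^ 64) ^ 2 * (sg U.toFinset pm 1 * sg U.toFinset pm (j - 1) -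
            sg U.toFinset pm (if j = 1 then 1 else j - 2)) := by
      unfold RI Lc
      rw [Int.cast_sub, Int.cast_mul, Int.cast_mul, hSC]
      ring
    rw [e]
    refine hcore.trans ?_
    norm_num
  refine ⟨key, ?_⟩
  have hL : |90 * 2 ^ 128 * Lc U.toFinset pm j| ≤ 2 ^ 136 := by
    have e : 90 * 2 ^ 128 * Lc U.toFinset pm j =
        -(2 ^ 128 * (sg U.toFinset pm 1 * sg U.toFinset pm (j - 1) -
            sg U.toFinset pm (if j = 1 then 1 else j - 2))) := by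
      unfold Lc
      ring
    rw [e, abs_neg, abs_mul]
    have h1 : |sg U.toFinset pm 1 * sg U.toFinset pm (j - 1) -
            sg U.toFinset pm (if j = 1 then 1 else j - 2)| ≤ 176 := by
      refine (abs_sub _ _).trans ?_
      rw [abs_mul]
      have := mul_le_mul hs b2 (abs_nonneg _) (by norm_num)
      linarith
    have h2 : |(2 : ℝ) ^ 128| = 2 ^ 128 := abs_of_pos (by positivity)
    rw [h2]
    calc (2 : ℝ) ^ 128 * _ ≤ 2 ^ 128 * 176 := mul_le_mul_of_nonneg_left h1 (by positivity)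
      _ ≤ 2 ^ 136 := by norm_num
  have hR : |((RI ct U pm j : ℤ) : ℝ)| ≤ 2 ^ 140 := by
    have e : ((RI ct U pm j : ℤ) : ℝ) =
        (((RI ct U pm j : ℤ) : ℝ) + 90 * 2 ^ 128 * Lc U.toFinset pm j) -
          90 * 2 ^ 128 * Lc U.toFinset pm j := by ring
    rw [e]
    refine (abs_sub _ _).trans ((add_le_add key hL).trans ?_)
    norm_num
  exact_mod_cast hR

theorem etaI_sound (ct : ℕ → ℤ) (hct : ∀ m, |((ct m : ℤ) : ℝ) - 2 ^ 64 * cs m| ≤ 2) (U : List ℕ)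
    (hn : U.Nodup) (pm : Bool) (hl : U.length + (if pm then 1 else 0) = 22)
    (hs : |sg U.toFinset pm 1| ≤ 3) :
    |((etaI ct U pm : ℤ) : ℝ) - 2 ^ 129 * eta U.toFinset pm| ≤ 2 ^ 74 := by
  have hl' : U.length ≤ 22 := by omega
  have k1 := gI_sound ct hct U hn hl' pm 1
  have k3 := gI_sound ct hct U hn hl' pm 2
  have hSC : ((SC : ℤ) : ℝ) = 2 ^ 64 := by unfold SC; norm_num
  have e : ((etaI ct U pm : ℤ) : ℝ) - 2 ^ 129 * eta U.toFinset pm =
      (((gI ct U pm 1 : ℤ) : ℝ) - 2 ^ 64 * sg U.toFinset pm 1) *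
        ((((gI ct U pm 1 : ℤ) : ℝ) - 2 ^ 64 * sg U.toFinset pm 1) +
          2 * 2 ^ 64 * sg U.toFinset pm 1) -
      2 ^ 64 * (((gI ct U pm 2 : ℤ) : ℝ) - 2 ^ 64 * sg U.toFinset pm 2) := by
    unfold etaI eta
    rw [Int.cast_sub, Int.cast_mul, Int.cast_mul, hSC]
    ring
  rw [e]
  generalize ((gI ct U pm 1 : ℤ) : ℝ) - 2 ^ 64 * sg U.toFinset pm 1 = A at *
  generalize ((gI ct U pm 2 : ℤ) : ℝ) - 2 ^ 64 * sg U.toFinset pm 2 = B at *
  generalize sg U.toFinset pm 1 = s at *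
  have h1 : |A + 2 * 2 ^ 64 * s| ≤ 88 + 3 * 2 ^ 65 := by
    refine (abs_add_le _ _).trans ?_
    rw [abs_mul]
    have h2 : |(2 : ℝ) * 2 ^ 64| = 2 ^ 65 := by rw [abs_of_pos (by positivity)]; norm_num
    rw [h2]
    have := mul_le_mul_of_nonneg_left hs (show (0 : ℝ) ≤ 2 ^ 65 by positivity)
    have h3 : (2 : ℝ) ^ 65 * 3 = 3 * 2 ^ 65 := by norm_num
    linarith
  have h4 : |A * (A + 2 * 2 ^ 64 * s)| ≤ 88 * (88 + 3 * 2 ^ 65) := by
    rw [abs_mul]
    exact mul_le_mul k1 h1 (abs_nonneg _) (by norm_num)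
  have h5 : |2 ^ 64 * B| ≤ 2 ^ 64 * 88 := by
    rw [abs_mul, abs_of_pos (show (0 : ℝ) < 2 ^ 64 by positivity)]
    exact mul_le_mul_of_nonneg_left k3 (by positivity)
  refine (abs_sub _ _).trans ((add_le_add h4 h5).trans ?_)
  norm_num

end Pool.Agent.K1H10.SP.C2b
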