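import Mathlib
import Pool.Agent.K1H10.SP.Defs
import Pool.Agent.K1H10.SP.CertDefs

set_option autoImplicit false


namespace Pool.Agent.K1H10.SP.C3b

open Polynomial
open Pool.Agent.K1H10.SP

theorem hloop_sound (F : ℝ[X]) (D m l0 : ℕ) (hD : D = l0 + m + 1) (alt : Bool) (b : ℤ) (dq : ℕ)
    (q : ℕ → ℤ)
    (hb : |2 ^ 40 * (-F.coeff (D - 1)) - (b : ℝ)| ≤ (DB : ℝ))
    (hq : ∀ i, i ≤ m → |2 ^ 40 * F.coeff i - (q i : ℝ)| ≤ (dq : ℝ)) (neg : Bool)
    (h : ℤ) (dh : ℕ) (hh : |2 ^ 40 * hs F D l0 - (h : ℝ)| ≤ (dh : ℝ))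
    (hc : hloop alt b dq ((List.range (m + 1)).reverse.map q) neg h dh = true) :
    0 < F.coeff 0 ∧ ∀ k, l0 + 1 + k ≤ D - 1 →
      0 < (if neg then (-1 : ℝ) else 1) * (if alt then (-1 : ℝ) else 1) ^ k *
        hs F D (l0 + 1 + k) := by
  induction m generalizing l0 neg h dh with
  | zero =>
    have hrange : (List.range (0 + 1)).reverse.map q = [q 0] := by simp
    rw [hrange] at hc
    simp only [hloop] at hc
    have hc1 : dq < (q 0).toNat := by simpa using hc
    have hc2 : (dq : ℤ) < q 0 := by omega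
    have hc3 : (dq : ℝ) < (q 0 : ℝ) := by exact_mod_cast hc2
    have h0 := hq 0 le_rfl
    rw [abs_le] at h0
    refine ⟨?_, fun k hk => by omega⟩
    nlinarith [h0.1]
  | succ m ih =>
    have hrange : (List.range (m + 1 + 1)).reverse.map q
        = q (m + 1) :: q m :: (List.range m).reverse.map q := by
      rw [List.range_succ, List.reverse_append, List.range_succ, List.reverse_append]
      simp
    have hrange2 : (List.range (m + 1)).reverse.map q = q m :: (List.range m).reverse.map q := by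
      rw [List.range_succ, List.reverse_append]
      simp
    rw [hrange] at hc
    simp only [hloop, Bool.and_eq_true] at hc
    obtain ⟨hc1, hc2⟩ := hc
    have hc1' : ((b.natAbs + DB) * dh + DB * h.natAbs) / 2 ^ 40 + dq + 3
        < (if neg then -((b * h) / ((2 ^ 40 : ℕ) : ℤ) + q (m + 1))
            else ((b * h) / ((2 ^ 40 : ℕ) : ℤ) + q (m + 1))).toNat := by
      simpa using hc1
    set h' : ℤ := (b * h) / ((2 ^ 40 : ℕ) : ℤ) + q (m + 1) with hh'
    set dh' : ℕ := ((b.natAbs + DB) * dh + DB * h.natAbs) / 2 ^ 40 + dq + 3 with hdh'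
    have hstep : hs F D (l0 + 1) = -F.coeff (D - 1) * hs F D l0 + F.coeff (m + 1) := by
      have : D - (l0 + 1) = m + 1 := by omega
      rw [hs, this]
    have hbound : |2 ^ 40 * hs F D (l0 + 1) - (h' : ℝ)| ≤ (dh' : ℝ) := by
      have hq1 := hq (m + 1) le_rfl
      set x : ℝ := 2 ^ 40 * (-F.coeff (D - 1)) with hx
      set y : ℝ := 2 ^ 40 * hs F D l0 with hy
      have e1 : 2 ^ 40 * hs F D (l0 + 1) = x * y / 2 ^ 40 + 2 ^ 40 * F.coeff (m + 1) := by
        rw [hstep, hx, hy]; ring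
      have hxy : |x * y - (b : ℝ) * (h : ℝ)|
          ≤ ((|(b : ℝ)| + (DB : ℝ)) * (dh : ℝ) + (DB : ℝ) * |(h : ℝ)|) := by
        have e2 : x * y - (b : ℝ) * h = (x - b) * y + b * (y - h) := by ring
        rw [e2]
        have hy2 : |y| ≤ |(h : ℝ)| + dh := by
          have e3 : y = (y - h) + h := by ring
          calc |y| = |(y - h) + h| := by rw [← e3]
            _ ≤ |y - h| + |(h : ℝ)| := abs_add_le _ _
            _ ≤ |(h : ℝ)| + dh := by linarith
        have hDB : (0 : ℝ) ≤ (DB : ℝ) := Nat.cast_nonneg _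
        calc |(x - b) * y + b * (y - h)| ≤ |(x - b) * y| + |b * (y - h)| := abs_add_le _ _
          _ = |x - b| * |y| + |(b : ℝ)| * |y - h| := by
              rw [abs_mul (x - b) y, abs_mul (b : ℝ) (y - h)]
          _ ≤ (DB : ℝ) * (|(h : ℝ)| + dh) + |(b : ℝ)| * dh := by
              refine add_le_add ?_ ?_
              · exact mul_le_mul hb hy2 (abs_nonneg _) hDB
              · exact mul_le_mul_of_nonneg_left hh (abs_nonneg _)
          _ = ((|(b : ℝ)| + (DB : ℝ)) * (dh : ℝ) + (DB : ℝ) * |(h : ℝ)|) := by ring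
      have hnb : ((b.natAbs : ℕ) : ℝ) = |(b : ℝ)| := by
        rw [Nat.cast_natAbs, Int.cast_abs]
      have hnh : ((h.natAbs : ℕ) : ℝ) = |(h : ℝ)| := by
        rw [Nat.cast_natAbs, Int.cast_abs]
      set E0 : ℕ := (b.natAbs + DB) * dh + DB * h.natAbs with hE0
      have hE0r : (E0 : ℝ) = (|(b : ℝ)| + (DB : ℝ)) * (dh : ℝ) + (DB : ℝ) * |(h : ℝ)| := by
        rw [hE0]; push_cast [hnb, hnh]; ring
      rw [← hE0r] at hxy
      have hfl : (E0 : ℝ) / 2 ^ 40 ≤ ((E0 / 2 ^ 40 : ℕ) : ℝ) + 1 := by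
        have h3 : E0 < (E0 / 2 ^ 40 + 1) * 2 ^ 40 := by
          have := Nat.lt_div_mul_add (a := E0) (b := 2 ^ 40) (by positivity)
          rw [add_mul, one_mul]; exact this
        have h4 : (E0 : ℝ) < (((E0 / 2 ^ 40 : ℕ) : ℝ) + 1) * 2 ^ 40 := by
          exact_mod_cast h3
        rw [div_le_iff₀ (by positivity)]
        exact h4.le
      have hfb : |((b : ℝ) * h) / 2 ^ 40 - (((b * h) / ((2 ^ 40 : ℕ) : ℤ) : ℤ) : ℝ)| ≤ 1 := by
        have hpos : (0 : ℤ) < ((2 ^ 40 : ℕ) : ℤ) := by positivity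
        have h5 := Int.emod_nonneg (b * h) hpos.ne'
        have h6 := Int.emod_lt_of_pos (b * h) hpos
        have h7 := Int.mul_ediv_add_emod (b * h) ((2 ^ 40 : ℕ) : ℤ)
        have h7r : (2 ^ 40 : ℝ) * (((b * h) / ((2 ^ 40 : ℕ) : ℤ) : ℤ) : ℝ)
            + (((b * h) % ((2 ^ 40 : ℕ) : ℤ) : ℤ) : ℝ) = (b : ℝ) * h := by
          exact_mod_cast h7
        have h5r : (0 : ℝ) ≤ (((b * h) % ((2 ^ 40 : ℕ) : ℤ) : ℤ) : ℝ) := by exact_mod_cast h5
        have h6r : (((b * h) % ((2 ^ 40 : ℕ) : ℤ) : ℤ) : ℝ) < 2 ^ 40 := by exact_mod_cast h6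
        have e4 : ((b : ℝ) * h) / 2 ^ 40 - (((b * h) / ((2 ^ 40 : ℕ) : ℤ) : ℤ) : ℝ)
            = (((b * h) % ((2 ^ 40 : ℕ) : ℤ) : ℤ) : ℝ) / 2 ^ 40 := by
          rw [← h7r]; field_simp; ring
        rw [e4, abs_of_nonneg (by positivity), div_le_one (by positivity)]
        exact h6r.le
      have hxy2 : |x * y / 2 ^ 40 - ((b : ℝ) * h) / 2 ^ 40| ≤ (E0 : ℝ) / 2 ^ 40 := by
        rw [← sub_div, abs_div, abs_of_pos (by positivity : (0 : ℝ) < 2 ^ 40)]
        exact div_le_div_of_nonneg_right hxy (by positivity)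
      have e5 : 2 ^ 40 * hs F D (l0 + 1) - (h' : ℝ)
          = (x * y / 2 ^ 40 - ((b : ℝ) * h) / 2 ^ 40)
            + (((b : ℝ) * h) / 2 ^ 40 - (((b * h) / ((2 ^ 40 : ℕ) : ℤ) : ℤ) : ℝ))
            + (2 ^ 40 * F.coeff (m + 1) - (q (m + 1) : ℝ)) := by
        rw [e1, hh', Int.cast_add]; ring
      rw [e5]
      calc _ ≤ |(x * y / 2 ^ 40 - ((b : ℝ) * h) / 2 ^ 40)|
            + |(((b : ℝ) * h) / 2 ^ 40 - (((b * h) / ((2 ^ 40 : ℕ) : ℤ) : ℤ) : ℝ))|
            + |(2 ^ 40 * F.coeff (m + 1) - (q (m + 1) : ℝ))| := abs_add_three _ _ _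
        _ ≤ (((E0 / 2 ^ 40 : ℕ) : ℝ) + 1) + 1 + dq := by
            refine add_le_add (add_le_add (hxy2.trans hfl) hfb) hq1
        _ ≤ (dh' : ℝ) := by
            rw [hdh']; push_cast; linarith
    have hne : 0 < (if neg then (-1 : ℝ) else 1) * hs F D (l0 + 1) := by
      rw [abs_le] at hbound
      cases neg
      · simp only [Bool.false_eq_true, if_false] at hc1' ⊢
        have h8 : (dh' : ℤ) < h' := by omega
        have h9 : (dh' : ℝ) < (h' : ℝ) := by exact_mod_cast h8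
        nlinarith [hbound.1]
      · simp only [if_true] at hc1' ⊢
        have h8 : (dh' : ℤ) < -h' := by omega
        have h9 : (dh' : ℝ) < -(h' : ℝ) := by exact_mod_cast h8
        nlinarith [hbound.2]
    obtain ⟨g0, g1⟩ := ih (l0 + 1) (by omega) (fun i hi => hq i (by omega)) (Bool.xor neg alt) h' dh'
      hbound (by rw [hrange2]; exact hc2)
    refine ⟨g0, fun k hk => ?_⟩
    rcases k with _ | k
    · rw [pow_zero, mul_one]
      exact hne
    · have h10 := g1 k (by omega)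
      have e6 : l0 + 1 + 1 + k = l0 + 1 + (k + 1) := by omega
      rw [e6] at h10
      have e7 : (if Bool.xor neg alt then (-1 : ℝ) else 1) =
          (if neg then (-1 : ℝ) else 1) * (if alt then (-1 : ℝ) else 1) := by
        cases neg <;> cases alt <;> simp
      rw [e7] at h10
      rw [pow_succ]
      calc (0 : ℝ) < _ := h10
        _ = _ := by ring

theorem sumAbs_eq (n : ℕ) (q : ℕ → ℤ) :
    sumAbs ((List.range n).reverse.map q) = ∑ i ∈ Finset.range n, (q i).natAbs := by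
  induction n with
  | zero => simp [sumAbs]
  | succ n ih =>
    rw [List.range_succ, List.reverse_append, Finset.sum_range_succ]
    simp only [List.reverse_cons, List.reverse_nil, List.nil_append, List.singleton_append,
      List.map_cons, sumAbs, ih]
    omega

end Pool.Agent.K1H10.SP.C3b
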