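import Pool.Agent.K1H10.SP.Defs

set_option autoImplicit false

namespace Pool.Agent.K1H10.SP

open Polynomial

/-- Every perturbation on the boundary of the box is detected by a set of the list, at the
perturbation itself or at an earlier time `θ` of its path `j ↦ θ ^ j ρ_j`. -/
def Detect (Data : List (ℕ × List ℕ × Bool)) : Prop :=
  ∀ ρ, Box ρ → ∀ j0 ∈ Finset.Icc 1 89, |ρ j0| = bd j0 → ∃ t ∈ Data, ∃ θ : ℝ, 0 < θ ∧ θ ≤ 1 ∧
    ((0 < eta t.2.1.toFinset t.2.2 ∧ eta t.2.1.toFinset t.2.2 +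
        L t.2.1.toFinset t.2.2 (fun j => θ ^ j * ρ j) < -(1 / 40000000)) ∨
    (eta t.2.1.toFinset t.2.2 < 0 ∧ 1 / 40000000 < eta t.2.1.toFinset t.2.2 +
        L t.2.1.toFinset t.2.2 (fun j => θ ^ j * ρ j)))

end Pool.Agent.K1H10.SP
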