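import Mathlib
import Pool.Agent.K1H10.SP.Defs
import Pool.Agent.K1H10.SP.CertDefs
import Pool.Agent.K1H10.SP.Bd
import Pool.Agent.K1H10.SP.Defs2

set_option autoImplicit false


namespace Pool.Agent.K1H10.SP.C4

open Polynomial
open Pool.Agent.K1H10.SP

/-- sign of the row -/
def detect_sound_sg (ct : ℕ → ℤ) (t : ℕ × List ℕ × Bool) : ℤ :=
  if 0 < etaI ct t.2.1 t.2.2 then 1 else -1

/-- the digits of the combination -/
def detect_sound_V (ct : ℕ → ℤ) : List (ℕ × List ℕ × Bool) → ℕ → ℕ → ℤ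
  | [], _, _ => 0
  | t :: ts, n, j => ((n % 2 ^ 32 : ℕ) : ℤ) * (detect_sound_sg ct t * RI ct t.2.1 t.2.2 (j + 1)) +
      detect_sound_V ct ts (n / 2 ^ 32) j

theorem detect_sound_bd (j : ℕ) : bd j = (bdI j : ℝ) / 1000000 := rfl

theorem detect_sound_sumbd : ∑ i ∈ Finset.range 89, bd (1 + i) = 580 / 1000000 := by
  simp_rw [detect_sound_bd]
  rw [← Finset.sum_div, ← Nat.cast_sum]
  have : ∑ i ∈ Finset.range 89, bdI (1 + i) = 580 := by decide +kernel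
  rw [this]
  norm_num

theorem detect_sound_reidx (f : ℕ → ℝ) :
    ∑ j ∈ Finset.Icc 1 89, f j = ∑ i ∈ Finset.range 89, f (1 + i) := by
  have h : Finset.Icc 1 89 = Finset.Ico 1 90 := by
    ext x; simp only [Finset.mem_Icc, Finset.mem_Ico]; omega
  rw [h, Finset.sum_Ico_eq_sum_range]

theorem detect_sound_combV (ct TL : ℕ → ℤ) (l : List (ℕ × List ℕ × Bool)) :
    (∀ t ∈ l, rowW ct TL t.2.1 t.2.2 =
      ∑ j ∈ Finset.range 89, RI ct t.2.1 t.2.2 (j + 1) * (B2 : ℤ) ^ j) → ∀ n,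
    combV (l.map (fun t => rowS ct TL t.2.1 t.2.2)) n =
      ∑ j ∈ Finset.range 89, detect_sound_V ct l n j * (B2 : ℤ) ^ j := by
  induction l with
  | nil =>
    intro _ n
    simp [combV, detect_sound_V]
  | cons t ts ih =>
    intro h n
    rw [List.map_cons]
    simp only [combV, detect_sound_V]
    rw [ih (fun t ht => h t (List.mem_cons_of_mem _ ht))]
    have h1 : (rowS ct TL t.2.1 t.2.2).1 = detect_sound_sg ct t *
        ∑ j ∈ Finset.range 89, RI ct t.2.1 t.2.2 (j + 1) * (B2 : ℤ) ^ j := by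
      rw [← h t (List.mem_cons_self)]
      unfold rowS detect_sound_sg
      split_ifs <;> simp
    rw [h1, Finset.mul_sum, Finset.mul_sum, ← Finset.sum_add_distrib]
    apply Finset.sum_congr rfl
    intro j _
    ring

theorem detect_sound_sgabs (ct : ℕ → ℤ) (t : ℕ × List ℕ × Bool) : |detect_sound_sg ct t| = 1 := by
  unfold detect_sound_sg
  split_ifs <;> simp

theorem detect_sound_Vbd (ct TL : ℕ → ℤ) (l : List (ℕ × List ℕ × Bool)) :
    (∀ t ∈ l, ∀ j, |RI ct t.2.1 t.2.2 j| ≤ 2 ^ 140) → ∀ n j,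
    |detect_sound_V ct l n j| ≤
      ((combS (l.map (fun t => rowS ct TL t.2.1 t.2.2)) n : ℕ) : ℤ) * 2 ^ 140 := by
  induction l with
  | nil =>
    intro _ n j
    simp [combS, detect_sound_V]
  | cons t ts ih =>
    intro h n j
    rw [List.map_cons]
    simp only [combS, detect_sound_V]
    have h1 := ih (fun t ht => h t (List.mem_cons_of_mem _ ht)) (n / 2 ^ 32) j
    have h2 := h t (List.mem_cons_self) (j + 1)
    have h3 : |((n % 2 ^ 32 : ℕ) : ℤ) * (detect_sound_sg ct t * RI ct t.2.1 t.2.2 (j + 1))| ≤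
        ((n % 2 ^ 32 : ℕ) : ℤ) * 2 ^ 140 := by
      rw [abs_mul, abs_mul, detect_sound_sgabs, one_mul, abs_of_nonneg (Int.natCast_nonneg _)]
      exact mul_le_mul_of_nonneg_left h2 (Int.natCast_nonneg _)
    refine (abs_add_le _ _).trans ?_
    rw [Nat.cast_add, add_mul]
    exact add_le_add h3 h1

theorem detect_sound_combS (l : List (ℤ × ℕ)) : ∀ n, combS l n ≤ l.length * 2 ^ 32 := by
  induction l with
  | nil => intro n; simp [combS]
  | cons r rs ih =>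
    intro n
    simp only [combS, List.length_cons]
    have h1 := ih (n / 2 ^ 32)
    have h2 : n % 2 ^ 32 < 2 ^ 32 := Nat.mod_lt _ (by norm_num)
    rw [add_mul, one_mul]
    omega

theorem detect_sound_CST : (2 : ℝ) ^ 129 / 40000000 + 2 ^ 74 ≤ (CST : ℝ) := by
  unfold CST
  norm_num

theorem detect_sound_one (ct : ℕ → ℤ) (t : ℕ × List ℕ × Bool) (ρ : ℕ → ℝ) (hρ : Box ρ)
    (hRI : ∀ j, |((RI ct t.2.1 t.2.2 j : ℤ) : ℝ) + 90 * 2 ^ 128 * Lc t.2.1.toFinset t.2.2 j| ≤ 2 ^ 77)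
    (heta : |((etaI ct t.2.1 t.2.2 : ℤ) : ℝ) - 2 ^ 129 * eta t.2.1.toFinset t.2.2| ≤ 2 ^ 74)
    (hbig : 2 ^ 75 < (etaI ct t.2.1 t.2.2).natAbs)
    (hnot : ¬ ((0 < eta t.2.1.toFinset t.2.2 ∧
      eta t.2.1.toFinset t.2.2 + L t.2.1.toFinset t.2.2 ρ < -(1 / 40000000)) ∨
      (eta t.2.1.toFinset t.2.2 < 0 ∧
        1 / 40000000 < eta t.2.1.toFinset t.2.2 + L t.2.1.toFinset t.2.2 ρ))) :
    ∑ i ∈ Finset.range 89, ρ (1 + i) *
        (((detect_sound_sg ct t * RI ct t.2.1 t.2.2 (i + 1) : ℤ)) : ℝ)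
      ≤ 45 * ((((etaI ct t.2.1 t.2.2).natAbs + CST : ℕ)) : ℝ) + 2 ^ 77 * (580 / 1000000) := by
  have hL : L t.2.1.toFinset t.2.2 ρ =
      ∑ i ∈ Finset.range 89, ρ (1 + i) * Lc t.2.1.toFinset t.2.2 (1 + i) := by
    unfold L
    rw [detect_sound_reidx]
  have h1 : |∑ i ∈ Finset.range 89, ρ (1 + i) * ((RI ct t.2.1 t.2.2 (i + 1) : ℤ) : ℝ) +
      90 * 2 ^ 128 * L t.2.1.toFinset t.2.2 ρ| ≤ 2 ^ 77 * (580 / 1000000) := by
    have h2 : ∑ i ∈ Finset.range 89, ρ (1 + i) * ((RI ct t.2.1 t.2.2 (i + 1) : ℤ) : ℝ) +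
      90 * 2 ^ 128 * L t.2.1.toFinset t.2.2 ρ =
      ∑ i ∈ Finset.range 89, ρ (1 + i) * (((RI ct t.2.1 t.2.2 (1 + i) : ℤ) : ℝ) +
        90 * 2 ^ 128 * Lc t.2.1.toFinset t.2.2 (1 + i)) := by
      rw [hL, Finset.mul_sum, ← Finset.sum_add_distrib]
      apply Finset.sum_congr rfl
      intro i _
      rw [add_comm i 1]
      ring
    rw [h2]
    refine (Finset.abs_sum_le_sum_abs _ _).trans ?_
    rw [← detect_sound_sumbd, Finset.mul_sum]
    apply Finset.sum_le_sum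
    intro i hi
    rw [Finset.mem_range] at hi
    rw [abs_mul, mul_comm]
    exact mul_le_mul (hRI (1 + i)) (hρ (1 + i) (Finset.mem_Icc.2 ⟨by omega, by omega⟩))
      (abs_nonneg _) (by positivity)
  have hC := detect_sound_CST
  obtain ⟨e1, e2⟩ := abs_le.1 heta
  obtain ⟨f1, f2⟩ := abs_le.1 h1
  push Not at hnot
  obtain ⟨g1, g2⟩ := hnot
  rw [Nat.cast_add]
  by_cases hE : 0 < etaI ct t.2.1 t.2.2
  · have hE1 : (2 : ℝ) ^ 75 < ((etaI ct t.2.1 t.2.2 : ℤ) : ℝ) := by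
      have : (2 : ℤ) ^ 75 < etaI ct t.2.1 t.2.2 := by omega
      exact_mod_cast this
    have hE2 : (((etaI ct t.2.1 t.2.2).natAbs : ℕ) : ℝ) = ((etaI ct t.2.1 t.2.2 : ℤ) : ℝ) := by
      rw [Nat.cast_natAbs, abs_of_pos hE]
    have het : 0 < eta t.2.1.toFinset t.2.2 := by
      by_contra hcon
      push Not at hcon
      nlinarith [hcon, e2, hE1]
    have g3 := g1 het
    have hsg : detect_sound_sg ct t = 1 := by
      unfold detect_sound_sg; rw [if_pos hE]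
    rw [hE2]
    simp only [hsg, one_mul]
    linarith
  · have hE1 : ((etaI ct t.2.1 t.2.2 : ℤ) : ℝ) < - (2 : ℝ) ^ 75 := by
      have : etaI ct t.2.1 t.2.2 < -(2 : ℤ) ^ 75 := by omega
      exact_mod_cast this
    have hE2 : (((etaI ct t.2.1 t.2.2).natAbs : ℕ) : ℝ) = -((etaI ct t.2.1 t.2.2 : ℤ) : ℝ) := by
      rw [Nat.cast_natAbs, abs_of_nonpos (not_lt.1 hE), Int.cast_neg]
    have het : eta t.2.1.toFinset t.2.2 < 0 := by
      by_contra hcon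
      push Not at hcon
      nlinarith [hcon, e1, hE1]
    have g3 := g2 het
    have hsg : detect_sound_sg ct t = -1 := by
      unfold detect_sound_sg; rw [if_neg hE]
    have hneg : ∑ i ∈ Finset.range 89, ρ (1 + i) *
        (((detect_sound_sg ct t * RI ct t.2.1 t.2.2 (i + 1) : ℤ)) : ℝ) =
        -∑ i ∈ Finset.range 89, ρ (1 + i) * ((RI ct t.2.1 t.2.2 (i + 1) : ℤ) : ℝ) := by
      rw [← Finset.sum_neg_distrib]
      apply Finset.sum_congr rfl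
      intro i _
      rw [hsg]
      push_cast
      ring
    rw [hE2, hneg]
    linarith

theorem detect_sound_sum (ct TL : ℕ → ℤ) (ρ : ℕ → ℝ) (l : List (ℕ × List ℕ × Bool)) :
    (∀ t ∈ l, ∑ i ∈ Finset.range 89, ρ (1 + i) *
        (((detect_sound_sg ct t * RI ct t.2.1 t.2.2 (i + 1) : ℤ)) : ℝ)
      ≤ 45 * ((((etaI ct t.2.1 t.2.2).natAbs + CST : ℕ)) : ℝ) + 2 ^ 77 * (580 / 1000000)) → ∀ n,
    ∑ i ∈ Finset.range 89, ρ (1 + i) * ((detect_sound_V ct l n i : ℤ) : ℝ) ≤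
      45 * ((combH (l.map (fun t => rowS ct TL t.2.1 t.2.2)) n : ℕ) : ℝ) +
      2 ^ 77 * (580 / 1000000) * ((combS (l.map (fun t => rowS ct TL t.2.1 t.2.2)) n : ℕ) : ℝ) := by
  induction l with
  | nil =>
    intro _ n
    simp [combH, combS, detect_sound_V]
  | cons t ts ih =>
    intro h n
    rw [List.map_cons]
    simp only [combH, combS, detect_sound_V]
    have h1 := ih (fun t ht => h t (List.mem_cons_of_mem _ ht)) (n / 2 ^ 32)
    have h2 := h t (List.mem_cons_self)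
    have h3 : (rowS ct TL t.2.1 t.2.2).2 = (etaI ct t.2.1 t.2.2).natAbs + CST := by
      unfold rowS
      split_ifs <;> rfl
    have h4 : ∑ i ∈ Finset.range 89, ρ (1 + i) * ((((n % 2 ^ 32 : ℕ) : ℤ) *
        (detect_sound_sg ct t * RI ct t.2.1 t.2.2 (i + 1)) +
        detect_sound_V ct ts (n / 2 ^ 32) i : ℤ) : ℝ) =
        ((n % 2 ^ 32 : ℕ) : ℝ) * (∑ i ∈ Finset.range 89, ρ (1 + i) *
        (((detect_sound_sg ct t * RI ct t.2.1 t.2.2 (i + 1) : ℤ)) : ℝ)) +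
        ∑ i ∈ Finset.range 89, ρ (1 + i) * ((detect_sound_V ct ts (n / 2 ^ 32) i : ℤ) : ℝ) := by
      rw [Finset.mul_sum, ← Finset.sum_add_distrib]
      apply Finset.sum_congr rfl
      intro i _
      rw [Int.cast_add, Int.cast_mul, Int.cast_natCast]
      ring
    rw [h4, h3]
    have h5 := mul_le_mul_of_nonneg_left h2 (Nat.cast_nonneg (α := ℝ) (n % 2 ^ 32))
    rw [Nat.cast_add, Nat.cast_mul, Nat.cast_add (n % 2 ^ 32)]
    linarith

theorem detect_sound_TT (j : ℕ) : |(TT j : ℝ) - (97 / 100) ^ j * 2 ^ 32| ≤ 1 := by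
  unfold TT
  have h1 : (0 : ℝ) < 100 ^ j := by positivity
  have h2 : 97 ^ j * 2 ^ 32 / 100 ^ j * 100 ^ j ≤ 97 ^ j * 2 ^ 32 := Nat.div_mul_le_self _ _
  have h3 : 97 ^ j * 2 ^ 32 < (97 ^ j * 2 ^ 32 / 100 ^ j + 1) * 100 ^ j := by
    have := Nat.lt_div_mul_add (a := 97 ^ j * 2 ^ 32) (b := 100 ^ j) (by positivity)
    rw [add_mul, one_mul]; exact this
  have h2' : ((97 ^ j * 2 ^ 32 / 100 ^ j : ℕ) : ℝ) * 100 ^ j ≤ 97 ^ j * 2 ^ 32 := by
    exact_mod_cast h2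
  have h3' : (97 : ℝ) ^ j * 2 ^ 32 < (((97 ^ j * 2 ^ 32 / 100 ^ j : ℕ) : ℝ) + 1) * 100 ^ j := by
    exact_mod_cast h3
  have e : (97 / 100 : ℝ) ^ j * 2 ^ 32 = 97 ^ j * 2 ^ 32 / 100 ^ j := by
    rw [div_pow]; ring
  rw [e, abs_le]
  constructor
  · rw [neg_le_sub_iff_le_add, div_le_iff₀ h1]
    exact h3'.le
  · have h4 : ((97 ^ j * 2 ^ 32 / 100 ^ j : ℕ) : ℝ) ≤ 97 ^ j * 2 ^ 32 / 100 ^ j := by
      rw [le_div_iff₀ h1]; exact h2'
    linarith

theorem detect_sound_final (ρ : ℕ → ℝ) (hρ : Box ρ) (j0 : ℕ) (hj0 : j0 ∈ Finset.Icc 1 89)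
    (hb : |ρ j0| = bd j0) (v v' : ℕ → ℤ) (d d' : ℕ → ℕ)
    (hd : ∀ i < 89, (d i : ℤ) = v i + H2) (hd' : ∀ i < 89, (d' i : ℤ) = v' i + H2)
    (SS SS' HH HH' : ℕ)
    (hv' : ∀ i < 89, |v' i| ≤ (SS' : ℤ) * 2 ^ 140)
    (hsum : ∑ i ∈ Finset.range 89, ρ (1 + i) * (v i : ℝ) ≤
      45 * (HH : ℝ) + 2 ^ 77 * (580 / 1000000) * (SS : ℝ))
    (hsum' : ∑ i ∈ Finset.range 89, ((97 / 100) ^ (1 + i) * ρ (1 + i)) * (v' i : ℝ) ≤
      45 * (HH' : ℝ) + 2 ^ 77 * (580 / 1000000) * (SS' : ℝ))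
    (hlt : 2 * (∑ i ∈ Finset.range 89, bdI (1 + i) * (dig2 (d i) (d' i) (1 + i)).natAbs) +
      1160 * (SS + SS') * 2 ^ 141 + 90000000 * 2 ^ 32 * (HH + HH') < 4 * bdI j0 *
        (if decide (0 < ρ j0) = true then dig2 (d (j0 - 1)) (d' (j0 - 1)) j0
          else -dig2 (d (j0 - 1)) (d' (j0 - 1)) j0).toNat) : False := by
  rw [Finset.mem_Icc] at hj0
  have hi0 : j0 - 1 < 89 := by omega
  have hj : 1 + (j0 - 1) = j0 := by omega
  obtain ⟨W, hW⟩ : ∃ W : ℕ → ℤ, W = fun i => v i * 2 ^ 32 + v' i * (TT (1 + i) : ℤ) := ⟨_, rfl⟩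
  have hdig : ∀ i < 89, dig2 (d i) (d' i) (1 + i) = W i := by
    intro i hi
    rw [hW]
    unfold dig2
    rw [hd i hi, hd' i hi]
    ring
  have hdig0 : dig2 (d (j0 - 1)) (d' (j0 - 1)) j0 = W (j0 - 1) := by
    have := hdig (j0 - 1) hi0
    rwa [hj] at this
  rw [hdig0] at hlt
  -- absSum
  have hA : ((∑ i ∈ Finset.range 89, bdI (1 + i) * (dig2 (d i) (d' i) (1 + i)).natAbs : ℕ) : ℝ) =
      1000000 * ∑ i ∈ Finset.range 89, bd (1 + i) * |(W i : ℝ)| := by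
    rw [Nat.cast_sum, Finset.mul_sum]
    apply Finset.sum_congr rfl
    intro i hi
    rw [hdig i (Finset.mem_range.1 hi), Nat.cast_mul, Nat.cast_natAbs, detect_sound_bd,
      Int.cast_abs]
    ring
  -- upper bound of the sum
  have hup : ∑ i ∈ Finset.range 89, ρ (1 + i) * (W i : ℝ) ≤
      2 ^ 32 * 45 * ((HH : ℝ) + HH') + (580 / 1000000) * ((SS : ℝ) + SS') * 2 ^ 141 := by
    have e1 : ∑ i ∈ Finset.range 89, ρ (1 + i) * (W i : ℝ) =
        2 ^ 32 * (∑ i ∈ Finset.range 89, ρ (1 + i) * (v i : ℝ)) +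
        2 ^ 32 * (∑ i ∈ Finset.range 89, ((97 / 100) ^ (1 + i) * ρ (1 + i)) * (v' i : ℝ)) +
        ∑ i ∈ Finset.range 89, ρ (1 + i) * (v' i : ℝ) *
          ((TT (1 + i) : ℝ) - (97 / 100) ^ (1 + i) * 2 ^ 32) := by
      rw [Finset.mul_sum, Finset.mul_sum, ← Finset.sum_add_distrib, ← Finset.sum_add_distrib]
      apply Finset.sum_congr rfl
      intro i _
      rw [hW]
      push_cast
      ring
    have e2 : ∑ i ∈ Finset.range 89, ρ (1 + i) * (v' i : ℝ) *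
          ((TT (1 + i) : ℝ) - (97 / 100) ^ (1 + i) * 2 ^ 32) ≤
        580 / 1000000 * ((SS' : ℝ) * 2 ^ 140) := by
      rw [← detect_sound_sumbd, Finset.sum_mul]
      apply Finset.sum_le_sum
      intro i hi
      rw [Finset.mem_range] at hi
      have g1 := hρ (1 + i) (Finset.mem_Icc.2 ⟨by omega, by omega⟩)
      have g2 : |(v' i : ℝ)| ≤ (SS' : ℝ) * 2 ^ 140 := by
        have := hv' i hi
        rw [← Int.cast_abs]
        exact_mod_cast this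
      have g3 := detect_sound_TT (1 + i)
      refine (le_abs_self _).trans ?_
      rw [abs_mul, abs_mul]
      have g4 : |ρ (1 + i)| * |(v' i : ℝ)| ≤ bd (1 + i) * ((SS' : ℝ) * 2 ^ 140) :=
        mul_le_mul g1 g2 (abs_nonneg _) (bd_nonneg _)
      have g5 : (0 : ℝ) ≤ (SS' : ℝ) * 2 ^ 140 := mul_nonneg (Nat.cast_nonneg _) (by norm_num)
      calc |ρ (1 + i)| * |(v' i : ℝ)| * |(TT (1 + i) : ℝ) - (97 / 100) ^ (1 + i) * 2 ^ 32|
          ≤ (bd (1 + i) * ((SS' : ℝ) * 2 ^ 140)) * 1 :=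
            mul_le_mul g4 g3 (abs_nonneg _) (mul_nonneg (bd_nonneg _) g5)
        _ = _ := by ring
    rw [e1]
    have f1 : (0 : ℝ) ≤ (SS : ℝ) := Nat.cast_nonneg _
    have f2 : (0 : ℝ) ≤ (SS' : ℝ) := Nat.cast_nonneg _
    have f3 := mul_le_mul_of_nonneg_left hsum (by positivity : (0 : ℝ) ≤ 2 ^ 32)
    have f4 := mul_le_mul_of_nonneg_left hsum' (by positivity : (0 : ℝ) ≤ 2 ^ 32)
    nlinarith
  -- lower bound of the sum
  have hnn : ∀ i ∈ Finset.range 89, 0 ≤ ρ (1 + i) * (W i : ℝ) + bd (1 + i) * |(W i : ℝ)| := by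
    intro i hi
    rw [Finset.mem_range] at hi
    have h1 := hρ (1 + i) (Finset.mem_Icc.2 ⟨by omega, by omega⟩)
    have h2 : -(|ρ (1 + i)| * |(W i : ℝ)|) ≤ ρ (1 + i) * (W i : ℝ) := by
      rw [← abs_mul]; exact neg_abs_le _
    have h3 := mul_le_mul_of_nonneg_right h1 (abs_nonneg (W i : ℝ))
    linarith
  have hlow := Finset.single_le_sum hnn (Finset.mem_range.2 hi0)
  rw [Finset.sum_add_distrib, hj] at hlow
  -- value of x
  have hx : (2 : ℝ) * ((bdI j0 : ℕ) : ℝ) *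
      (((if decide (0 < ρ j0) = true then W (j0 - 1) else -W (j0 - 1)).toNat : ℕ) : ℝ) =
      1000000 * (ρ j0 * (W (j0 - 1) : ℝ) + bd j0 * |(W (j0 - 1) : ℝ)|) := by
    by_cases hpos : 0 < ρ j0
    · rw [if_pos (by simpa using hpos)]
      have h2 : 2 * (((W (j0 - 1)).toNat : ℕ) : ℤ) = W (j0 - 1) + |W (j0 - 1)| := by
        rw [Int.abs_eq_natAbs]; omega
      have h3 : (2 : ℝ) * (((W (j0 - 1)).toNat : ℕ) : ℝ) =
          (W (j0 - 1) : ℝ) + |(W (j0 - 1) : ℝ)| := by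
        exact_mod_cast h2
      have h4 : ρ j0 = bd j0 := by rw [← hb, abs_of_pos hpos]
      rw [h4, detect_sound_bd]
      linear_combination ((bdI j0 : ℕ) : ℝ) * h3
    · rw [if_neg (by simpa using hpos)]
      have h2 : 2 * (((-W (j0 - 1)).toNat : ℕ) : ℤ) = |W (j0 - 1)| - W (j0 - 1) := by
        rw [Int.abs_eq_natAbs]; omega
      have h3 : (2 : ℝ) * (((-W (j0 - 1)).toNat : ℕ) : ℝ) =
          |(W (j0 - 1) : ℝ)| - (W (j0 - 1) : ℝ) := by
        exact_mod_cast h2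
      have h4 : ρ j0 = -bd j0 := by rw [← hb, abs_of_nonpos (not_lt.1 hpos)]; ring
      rw [h4, detect_sound_bd]
      linear_combination ((bdI j0 : ℕ) : ℝ) * h3
  have hlt' : (2 : ℝ) *
      ((∑ i ∈ Finset.range 89, bdI (1 + i) * (dig2 (d i) (d' i) (1 + i)).natAbs : ℕ) : ℝ) +
      1160 * ((SS : ℝ) + SS') * 2 ^ 141 + 90000000 * 2 ^ 32 * ((HH : ℝ) + HH') <
      4 * ((bdI j0 : ℕ) : ℝ) *
      (((if decide (0 < ρ j0) = true then W (j0 - 1) else -W (j0 - 1)).toNat : ℕ) : ℝ) := by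
    have := (Nat.cast_lt (α := ℝ)).2 hlt
    rw [Nat.cast_add, Nat.cast_add, Nat.cast_mul, Nat.cast_mul, Nat.cast_mul, Nat.cast_mul,
      Nat.cast_mul, Nat.cast_mul, Nat.cast_mul, Nat.cast_add, Nat.cast_add, Nat.cast_pow,
      Nat.cast_pow] at this
    exact_mod_cast this
  rw [hA] at hlt'
  linarith

theorem detect_sound
    (digit_sound : ∀ (B H n : ℕ), B = 2 * H → 0 < H → ∀ (v : ℕ → ℤ),
      (∀ j, j < n → |v j| < H) → ∀ (j : ℕ), j < n →
      (((((∑ i ∈ Finset.range n, v i * (B : ℤ) ^ i) + (offs B H n : ℤ)).toNat / B ^ j % B : ℕ)) : ℤ)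
      = v j + H)
    (absSum_eq : ∀ (cnt n m j : ℕ), absSum cnt n m j =
      ∑ i ∈ Finset.range cnt,
        bdI (j + i) * (dig2 (n / B2 ^ i % B2) (m / B2 ^ i % B2) (j + i)).natAbs)
    (ct TL : ℕ → ℤ) (Data : List (ℕ × List ℕ × Bool)) (hlen : Data.length ≤ 1000)
    (hrow : ∀ t ∈ Data, rowW ct TL t.2.1 t.2.2 =
      ∑ j ∈ Finset.range 89, RI ct t.2.1 t.2.2 (j + 1) * (B2 : ℤ) ^ j)
    (hRI : ∀ t ∈ Data, ∀ j, |((RI ct t.2.1 t.2.2 j : ℤ) : ℝ) +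
      90 * 2 ^ 128 * Lc t.2.1.toFinset t.2.2 j| ≤ 2 ^ 77 ∧ |RI ct t.2.1 t.2.2 j| ≤ 2 ^ 140)
    (heta : ∀ t ∈ Data, |((etaI ct t.2.1 t.2.2 : ℤ) : ℝ) - 2 ^ 129 * eta t.2.1.toFinset t.2.2|
      ≤ 2 ^ 74)
    (hbig : ∀ t ∈ Data, 2 ^ 75 < (etaI ct t.2.1 t.2.2).natAbs)
    (hLP : ∀ j0 ∈ Finset.Icc 1 89, ∀ pos : Bool, ∃ n,
      lpCheck (Data.map (fun t => rowS ct TL t.2.1 t.2.2)) j0 pos n = true) :
    Detect Data := by
  intro ρ hρ j0 hj0 hb
  by_contra hcon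
  push Not at hcon
  obtain ⟨n, hn⟩ := hLP j0 hj0 (decide (0 < ρ j0))
  have hgen : ∀ θ : ℝ, 0 < θ → θ ≤ 1 → ∀ t ∈ Data,
      ∑ i ∈ Finset.range 89, (θ ^ (1 + i) * ρ (1 + i)) *
        (((detect_sound_sg ct t * RI ct t.2.1 t.2.2 (i + 1) : ℤ)) : ℝ)
      ≤ 45 * ((((etaI ct t.2.1 t.2.2).natAbs + CST : ℕ)) : ℝ) + 2 ^ 77 * (580 / 1000000) := by
    intro θ h0 h1 t ht
    have hbox : Box (fun j => θ ^ j * ρ j) := by
      intro j hj
      show |θ ^ j * ρ j| ≤ bd j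
      rw [abs_mul, abs_of_pos (pow_pos h0 j)]
      have e1 : θ ^ j ≤ 1 := pow_le_one₀ h0.le h1
      have e2 := hρ j hj
      have e3 := abs_nonneg (ρ j)
      nlinarith
    apply detect_sound_one ct t (fun j => θ ^ j * ρ j) hbox (fun j => (hRI t ht j).1) (heta t ht)
      (hbig t ht)
    push Not
    exact hcon t ht θ h0 h1
  have h1 : ∀ t ∈ Data, ∑ i ∈ Finset.range 89, ρ (1 + i) *
        (((detect_sound_sg ct t * RI ct t.2.1 t.2.2 (i + 1) : ℤ)) : ℝ)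
      ≤ 45 * ((((etaI ct t.2.1 t.2.2).natAbs + CST : ℕ)) : ℝ) + 2 ^ 77 * (580 / 1000000) := by
    intro t ht
    have := hgen 1 one_pos le_rfl t ht
    simpa only [one_pow, one_mul] using this
  have h1' := fun t ht => hgen (97 / 100) (by norm_num) (by norm_num) t ht
  have h2 := detect_sound_sum ct TL ρ Data h1 n.1
  have h2' := detect_sound_sum ct TL (fun j => (97 / 100) ^ j * ρ j) Data h1' n.2
  have h5 := fun k => detect_sound_combS (Data.map (fun t => rowS ct TL t.2.1 t.2.2)) k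
  rw [List.length_map] at h5
  have h4 := fun k => detect_sound_Vbd ct TL Data (fun t ht j => (hRI t ht j).2) k
  have h6 : ∀ k j, j < 89 → |detect_sound_V ct Data k j| < ((H2 : ℕ) : ℤ) := by
    intro k j _
    refine lt_of_le_of_lt (h4 k j) ?_
    have h7 : combS (Data.map (fun t => rowS ct TL t.2.1 t.2.2)) k ≤ 1000 * 2 ^ 32 :=
      (h5 k).trans (Nat.mul_le_mul_right _ hlen)
    have h8 : ((combS (Data.map (fun t => rowS ct TL t.2.1 t.2.2)) k : ℕ) : ℤ) ≤ 1000 * 2 ^ 32 := by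
      exact_mod_cast h7
    calc ((combS (Data.map (fun t => rowS ct TL t.2.1 t.2.2)) k : ℕ) : ℤ) * 2 ^ 140
        ≤ (1000 * 2 ^ 32) * 2 ^ 140 := mul_le_mul_of_nonneg_right h8 (by positivity)
      _ < ((H2 : ℕ) : ℤ) := by unfold H2; norm_num
  have hBH : B2 = 2 * H2 := by unfold B2 H2; norm_num
  have hH : 0 < H2 := by unfold H2; norm_num
  have h9 : ∀ k, ∀ j < 89, (((((combV (Data.map (fun t => rowS ct TL t.2.1 t.2.2)) k) +
      (offs B2 H2 89 : ℤ)).toNat / B2 ^ j % B2 : ℕ)) : ℤ) = detect_sound_V ct Data k j + H2 := by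
    intro k j hj
    rw [detect_sound_combV ct TL Data hrow k]
    exact digit_sound B2 H2 89 hBH hH (detect_sound_V ct Data k) (h6 k) j hj
  unfold lpCheck at hn
  rw [Nat.blt_eq, absSum_eq] at hn
  exact detect_sound_final ρ hρ j0 hj0 hb (detect_sound_V ct Data n.1)
    (detect_sound_V ct Data n.2) (fun j =>
    ((combV (Data.map (fun t => rowS ct TL t.2.1 t.2.2)) n.1) +
      (offs B2 H2 89 : ℤ)).toNat / B2 ^ j % B2) (fun j =>
    ((combV (Data.map (fun t => rowS ct TL t.2.1 t.2.2)) n.2) +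
      (offs B2 H2 89 : ℤ)).toNat / B2 ^ j % B2) (h9 n.1) (h9 n.2) _ _ _ _
      (fun i _ => h4 n.2 i) h2 h2' hn

end Pool.Agent.K1H10.SP.C4
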