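import Mathlib
import Pool.Agent.K1H10.SP.Defs

set_option autoImplicit false


namespace Pool.Agent.K1H10.SP.C5

open Polynomial
open Pool.Agent.K1H10.SP

lemma csA (n : ℕ) (h : n ≤ 180) : cs n = cs (180 - n) := by
  unfold cs
  rw [Nat.cast_sub h, ← Real.cos_two_pi_sub]
  congr 1
  push_cast
  ring

lemma csB (n : ℕ) (h : n ≤ 90) : cs n = -cs (90 - n) := by
  unfold cs
  rw [Nat.cast_sub h, ← Real.cos_pi_sub]
  congr 1
  push_cast
  ring

theorem eta_zero_R (n d : ℕ) (hn : 1 < n) (hd : n * d = 180) (k : ℕ) :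
    ∑ t ∈ Finset.range n, cs (k + d * t) = 0 := by
  have hprim : IsPrimitiveRoot (Complex.exp (2 * Real.pi * Complex.I / n)) n :=
    Complex.isPrimitiveRoot_exp n (by omega)
  have hs := hprim.geom_sum_eq_zero hn
  have hn0 : (n : ℂ) ≠ 0 := by
    have : n ≠ 0 := by omega
    exact_mod_cast this
  have hdc : (n : ℂ) * d = 180 := by exact_mod_cast hd
  have h2 : ∑ t ∈ Finset.range n, Complex.exp (((Real.pi * ((k + d * t : ℕ) : ℝ) / 90 : ℝ) : ℂ)
      * Complex.I) = 0 := by
    have h1 : ∀ t : ℕ, Complex.exp (((Real.pi * ((k + d * t : ℕ) : ℝ) / 90 : ℝ) : ℂ) * Complex.I)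
        = Complex.exp (((Real.pi * (k : ℝ) / 90 : ℝ) : ℂ) * Complex.I) *
          (Complex.exp (2 * Real.pi * Complex.I / n)) ^ t := by
      intro t
      rw [← Complex.exp_nat_mul, ← Complex.exp_add]
      congr 1
      have hd' : (d : ℂ) = 180 / n := by
        field_simp
        rw [mul_comm]
        exact hdc
      push_cast
      rw [hd']
      field_simp
      ring
    simp_rw [h1, ← Finset.mul_sum, hs, mul_zero]
  have h3 := congrArg Complex.re h2
  rw [Complex.re_sum] at h3
  simp only [Complex.exp_ofReal_mul_I_re, Complex.zero_re] at h3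
  exact h3

theorem eta_zero : eta ({1, 7, 11, 15, 17, 19, 23, 27, 29, 33, 37, 43, 49, 53, 55, 65, 71, 75, 79, 83, 87, 89} : Finset ℕ)
    false = 0 := by
  have a65 : cs 115 = cs 65 := csA 115 (by norm_num)
  have a29 : cs 151 = cs 29 := csA 151 (by norm_num)
  have a55 : cs 125 = cs 55 := csA 125 (by norm_num)
  have a19 : cs 161 = cs 19 := csA 161 (by norm_num)
  have a49 : cs 131 = cs 49 := csA 131 (by norm_num)
  have a37 : cs 143 = cs 37 := csA 143 (by norm_num)
  have a33 : cs 147 = cs 33 := csA 147 (by norm_num)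
  have a75 : cs 75 = -cs 15 := csB 75 (by norm_num)
  have b130 : cs 130 = cs 50 := csA 130 (by norm_num)
  have b58 : cs 58 = cs 122 := csA 58 (by norm_num)
  have b110 : cs 110 = cs 70 := csA 110 (by norm_num)
  have b38 : cs 38 = cs 142 := csA 38 (by norm_num)
  have b98 : cs 98 = cs 82 := csA 98 (by norm_num)
  have b74 : cs 74 = cs 106 := csA 74 (by norm_num)
  have b66 : cs 66 = cs 114 := csA 66 (by norm_num)
  have b150 : cs 150 = cs 30 := csA 150 (by norm_num)
  have h30 : cs 30 = 1 / 2 := by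
    have : cs 30 = Real.cos (Real.pi / 3) := by
      unfold cs
      congr 1
      push_cast
      ring
    rw [this, Real.cos_pi_div_three]
  have s1 : ∑ a ∈ ({1, 7, 11, 15, 17, 19, 23, 27, 29, 33, 37, 43, 49, 53, 55, 65, 71, 75, 79, 83, 87, 89} : Finset ℕ), cs (1 * a) =
      cs 1 + cs 7 + cs 11 + cs 15 + cs 17 + cs 19 + cs 23 + cs 27 + cs 29 + cs 33 + cs 37 + cs 43 + cs 49 + cs 53 + cs 55 + cs 65 + cs 71 + cs 75 + cs 79 + cs 83 + cs 87 + cs 89 := by
    rw [Finset.sum_insert (by decide), Finset.sum_insert (by decide), Finset.sum_insert (by decide), Finset.sum_insert (by decide), Finset.sum_insert (by decide), Finset.sum_insert (by decide), Finset.sum_insert (by decide), Finset.sum_insert (by decide), Finset.sum_insert (by decide), Finset.sum_insert (by decide), Finset.sum_insert (by decide), Finset.sum_insert (by decide), Finset.sum_insert (by decide), Finset.sum_insert (by decide), Finset.sum_insert (by decide), Finset.sum_insert (by decide), Finset.sum_insert (by decide), Finset.sum_insert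 (by decide), Finset.sum_insert (by decide), Finset.sum_insert (by decide), Finset.sum_insert (by decide), Finset.sum_singleton]
    simp only [one_mul]
    ring
  have s2 : ∑ a ∈ ({1, 7, 11, 15, 17, 19, 23, 27, 29, 33, 37, 43, 49, 53, 55, 65, 71, 75, 79, 83, 87, 89} : Finset ℕ), cs (2 * a) =
      cs 2 + cs 14 + cs 22 + cs 30 + cs 34 + cs 38 + cs 46 + cs 54 + cs 58 + cs 66 + cs 74 + cs 86 + cs 98 + cs 106 + cs 110 + cs 130 + cs 142 + cs 150 + cs 158 + cs 166 + cs 174 + cs 178 := by
    rw [Finset.sum_insert (by decide), Finset.sum_insert (by decide), Finset.sum_insert (by decide), Finset.sum_insert (by decide), Finset.sum_insert (by decide), Finset.sum_insert (by decide), Finset.sum_insert (by decide), Finset.sum_insert (by decide), Finset.sum_insert (by decide), Finset.sum_insert (by decide), Finset.sum_insert (by decide), Finset.sum_insert (by decide), Finset.sum_insert (by decide), Finset.sum_insert (by decide), Finset.sum_insert (by decide), Finset.sum_insert (by decide), Finset.sum_insert (by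 decide), Finset.sum_insert (by decide), Finset.sum_insert (by decide), Finset.sum_insert (by decide), Finset.sum_insert (by decide), Finset.sum_singleton]
    simp only [Nat.reduceMul]
    ring
  have r5_7 : cs 7 + cs 43 + cs 79 + cs 115 + cs 151 = 0 := by
    have := eta_zero_R 5 36 (by norm_num) (by norm_num) 7
    simp only [Finset.sum_range_succ, Finset.sum_range_zero, Nat.reduceMul, Nat.reduceAdd,
      zero_add] at this
    linarith
  have r5_17 : cs 17 + cs 53 + cs 89 + cs 125 + cs 161 = 0 := by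
    have := eta_zero_R 5 36 (by norm_num) (by norm_num) 17
    simp only [Finset.sum_range_succ, Finset.sum_range_zero, Nat.reduceMul, Nat.reduceAdd,
      zero_add] at this
    linarith
  have r3_11 : cs 11 + cs 71 + cs 131 = 0 := by
    have := eta_zero_R 3 60 (by norm_num) (by norm_num) 11
    simp only [Finset.sum_range_succ, Finset.sum_range_zero, Nat.reduceMul, Nat.reduceAdd,
      zero_add] at this
    linarith
  have r3_23 : cs 23 + cs 83 + cs 143 = 0 := by
    have := eta_zero_R 3 60 (by norm_num) (by norm_num) 23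
    simp only [Finset.sum_range_succ, Finset.sum_range_zero, Nat.reduceMul, Nat.reduceAdd,
      zero_add] at this
    linarith
  have r3_27 : cs 27 + cs 87 + cs 147 = 0 := by
    have := eta_zero_R 3 60 (by norm_num) (by norm_num) 27
    simp only [Finset.sum_range_succ, Finset.sum_range_zero, Nat.reduceMul, Nat.reduceAdd,
      zero_add] at this
    linarith
  have r5_14 : cs 14 + cs 50 + cs 86 + cs 122 + cs 158 = 0 := by
    have := eta_zero_R 5 36 (by norm_num) (by norm_num) 14
    simp only [Finset.sum_range_succ, Finset.sum_range_zero, Nat.reduceMul, Nat.reduceAdd,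
      zero_add] at this
    linarith
  have r5_34 : cs 34 + cs 70 + cs 106 + cs 142 + cs 178 = 0 := by
    have := eta_zero_R 5 36 (by norm_num) (by norm_num) 34
    simp only [Finset.sum_range_succ, Finset.sum_range_zero, Nat.reduceMul, Nat.reduceAdd,
      zero_add] at this
    linarith
  have r3_22 : cs 22 + cs 82 + cs 142 = 0 := by
    have := eta_zero_R 3 60 (by norm_num) (by norm_num) 22
    simp only [Finset.sum_range_succ, Finset.sum_range_zero, Nat.reduceMul, Nat.reduceAdd,
      zero_add] at this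
    linarith
  have r3_46 : cs 46 + cs 106 + cs 166 = 0 := by
    have := eta_zero_R 3 60 (by norm_num) (by norm_num) 46
    simp only [Finset.sum_range_succ, Finset.sum_range_zero, Nat.reduceMul, Nat.reduceAdd,
      zero_add] at this
    linarith
  have r3_54 : cs 54 + cs 114 + cs 174 = 0 := by
    have := eta_zero_R 3 60 (by norm_num) (by norm_num) 54
    simp only [Finset.sum_range_succ, Finset.sum_range_zero, Nat.reduceMul, Nat.reduceAdd,
      zero_add] at this
    linarith
  have hd : cs 2 = 2 * cs 1 ^ 2 - 1 := by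
    unfold cs
    rw [← Real.cos_two_mul]
    congr 1
    push_cast
    ring
  have hS1 : ∑ a ∈ ({1, 7, 11, 15, 17, 19, 23, 27, 29, 33, 37, 43, 49, 53, 55, 65, 71, 75, 79, 83, 87, 89} : Finset ℕ), cs (1 * a) = cs 1 := by
    rw [s1]
    rw [a65, a29] at r5_7
    rw [a55, a19] at r5_17
    rw [a49] at r3_11
    rw [a37] at r3_23
    rw [a33] at r3_27
    linear_combination r5_7 + r5_17 + r3_11 + r3_23 + r3_27 + a75
  have hS2 : ∑ a ∈ ({1, 7, 11, 15, 17, 19, 23, 27, 29, 33, 37, 43, 49, 53, 55, 65, 71, 75, 79, 83, 87, 89} : Finset ℕ), cs (2 * a) = cs 2 + 1 := by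
    rw [s2, b130, b58, b110, b38, b98, b74, b66, b150, h30]
    linear_combination r5_14 + r5_34 + r3_22 + r3_46 + r3_54
  unfold eta sg
  rw [hS1, hS2, hd]
  simp only [Bool.false_eq_true, if_false, add_zero]
  ring

theorem prod_all (e : ℕ) (U : Finset ℕ) (pm : Bool)
    (w_pow : ∀ (e a : ℕ), a ∈ PAR e → (w a) ^ 90 = (-1) ^ e)
    (w_inj : ∀ (a b : ℕ), a < 180 → b < 180 → w a = w b → a = b)
    (FU_map : ∀ (e : ℕ) (U : Finset ℕ) (pm : Bool), U ⊆ UP e → (pm = true → e = 0) →
      (FU U pm).map (algebraMap ℝ ℂ) = ∏ a ∈ full U pm, (X - C (w a)))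
    (full_union : ∀ (e : ℕ) (U : Finset ℕ) (pm : Bool), Valid e U pm →
      full U pm ⊆ PAR e ∧ full (comp e U) (cpm e pm) = PAR e \ full U pm ∧
      (full U pm).card = 44 ∧ (full (comp e U) (cpm e pm)).card = 46)
    (hV : Valid e U pm) :
    FU U pm * FU (comp e U) (cpm e pm) = X ^ 90 - C ((-1) ^ e) ∧
    (FU U pm).Monic ∧ (FU U pm).natDegree = 44 ∧
    (FU (comp e U) (cpm e pm)).Monic ∧ (FU (comp e U) (cpm e pm)).natDegree = 46 := by
  classical
  obtain ⟨hsub, hcompl, hc1, hc2⟩ := full_union e U pm hV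
  have hm1 := FU_map e U pm hV.hU hV.hp
  have hm2 := FU_map e (comp e U) (cpm e pm) Finset.sdiff_subset (by
    intro h
    simp only [cpm, Bool.and_eq_true, decide_eq_true_eq] at h
    exact h.1)
  have hinj : Function.Injective (algebraMap ℝ ℂ) := (algebraMap ℝ ℂ).injective
  have hmon1 : (FU U pm).Monic := by
    apply Polynomial.monic_of_injective hinj
    rw [hm1]
    exact Polynomial.monic_prod_of_monic _ _ (fun a _ => Polynomial.monic_X_sub_C _)
  have hmon2 : (FU (comp e U) (cpm e pm)).Monic := by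
    apply Polynomial.monic_of_injective hinj
    rw [hm2]
    exact Polynomial.monic_prod_of_monic _ _ (fun a _ => Polynomial.monic_X_sub_C _)
  have hd1 : (FU U pm).natDegree = 44 := by
    rw [← Polynomial.natDegree_map (algebraMap ℝ ℂ), hm1,
      Polynomial.natDegree_finset_prod_X_sub_C_eq_card, hc1]
  have hd2 : (FU (comp e U) (cpm e pm)).natDegree = 46 := by
    rw [← Polynomial.natDegree_map (algebraMap ℝ ℂ), hm2,
      Polynomial.natDegree_finset_prod_X_sub_C_eq_card, hc2]
  refine ⟨?_, hmon1, hd1, hmon2, hd2⟩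
  apply Polynomial.map_injective _ hinj
  have hcard : (PAR e).card = 90 := by
    have := Finset.card_sdiff_add_card_eq_card hsub
    rw [← hcompl, hc2, hc1] at this
    omega
  have hprod : (FU U pm * FU (comp e U) (cpm e pm)).map (algebraMap ℝ ℂ) =
      ∏ a ∈ PAR e, (X - C (w a)) := by
    rw [Polynomial.map_mul, hm1, hm2, hcompl, mul_comm]
    exact Finset.prod_sdiff hsub
  rw [hprod]
  have hq : (X ^ 90 - C ((-1) ^ e) : ℝ[X]).map (algebraMap ℝ ℂ) = X ^ 90 - C ((-1 : ℂ) ^ e) := by
    simp
  rw [hq]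
  have hwinj : Set.InjOn w (PAR e : Set ℕ) := by
    intro a ha b hb hab
    simp only [PAR, Finset.coe_filter, Set.mem_setOf_eq, Finset.mem_range] at ha hb
    exact w_inj a b ha.1 hb.1 hab
  have hcardi : ((PAR e).image w).card = 90 := by
    rw [Finset.card_image_of_injOn hwinj, hcard]
  have hpm : (∏ a ∈ PAR e, (X - C (w a)) : ℂ[X]).Monic :=
    Polynomial.monic_prod_of_monic _ _ (fun a _ => Polynomial.monic_X_sub_C _)
  have hpd : (∏ a ∈ PAR e, (X - C (w a)) : ℂ[X]).natDegree = 90 := by
    rw [Polynomial.natDegree_finset_prod_X_sub_C_eq_card, hcard]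
  have hxm : (X ^ 90 - C ((-1 : ℂ) ^ e) : ℂ[X]).Monic :=
    Polynomial.monic_X_pow_sub_C _ (by norm_num)
  have hxd : (X ^ 90 - C ((-1 : ℂ) ^ e) : ℂ[X]).natDegree = 90 :=
    Polynomial.natDegree_X_pow_sub_C
  have hz : (∏ a ∈ PAR e, (X - C (w a)) : ℂ[X]) - (X ^ 90 - C ((-1 : ℂ) ^ e)) = 0 := by
    apply Polynomial.eq_zero_of_natDegree_lt_card_of_eval_eq_zero' _ ((PAR e).image w)
    · intro z hz
      obtain ⟨a, ha, rfl⟩ := Finset.mem_image.1 hz
      rw [Polynomial.eval_sub, Polynomial.eval_prod, Finset.prod_eq_zero ha (by simp)]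
      simp [w_pow e a ha]
    · rw [hcardi]
      have hne : (∏ a ∈ PAR e, (X - C (w a)) : ℂ[X]) ≠ 0 := hpm.ne_zero
      have hdeg : (∏ a ∈ PAR e, (X - C (w a)) : ℂ[X]).degree
          = (X ^ 90 - C ((-1 : ℂ) ^ e) : ℂ[X]).degree := by
        rw [Polynomial.degree_eq_natDegree hne, Polynomial.degree_eq_natDegree hxm.ne_zero, hpd, hxd]
      have hlt := Polynomial.degree_sub_lt hdeg hne (by rw [hpm.leadingCoeff, hxm.leadingCoeff])
      by_cases h0 : (∏ a ∈ PAR e, (X - C (w a)) : ℂ[X]) - (X ^ 90 - C ((-1 : ℂ) ^ e)) = 0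
      · rw [h0]; simp
      · rw [Polynomial.natDegree_lt_iff_degree_lt h0]
        rw [Polynomial.degree_eq_natDegree hne, hpd] at hlt
        exact hlt
  exact sub_eq_zero.1 hz

end Pool.Agent.K1H10.SP.C5
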