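import Mathlib
import Pool.Agent.K1H10.SP.Defs

set_option autoImplicit false


namespace Pool.Agent.K1H10.SP.D1a

open Polynomial
open Pool.Agent.K1H10.SP

theorem hs_scale (F : ℝ[X]) (R : ℝ) (D : ℕ) (hD : F.natDegree = D) (l : ℕ) (hl : l ≤ D) :
    hs (F.scaleRoots R) D l = R ^ l * hs F D l := by
  induction l with
  | zero => simp [hs]
  | succ l ih =>
    have ih' := ih (by omega)
    simp only [hs, ih', Polynomial.coeff_scaleRoots, hD]
    have h1 : D - (D - 1) = 1 := by omega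
    have h2 : D - (D - (l + 1)) = l + 1 := by omega
    rw [h1, h2]
    ring

theorem coeff_P (ρ : ℕ → ℝ) (e : ℕ) (n : ℕ) :
    (P ρ e).coeff n = (if n = 90 then 1 else 0) + (if 1 ≤ n ∧ n ≤ 89 then ρ (90 - n) else 0)
      - (if n = 0 then (-1) ^ e else 0) := by
  unfold P
  rw [Polynomial.coeff_sub, Polynomial.coeff_add, Polynomial.coeff_X_pow,
    Polynomial.finsetSum_coeff, Polynomial.coeff_C]
  congr 1
  congr 1
  simp only [Polynomial.coeff_C_mul, Polynomial.coeff_X_pow]
  by_cases h : 1 ≤ n ∧ n ≤ 89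
  · rw [if_pos h, Finset.sum_eq_single (90 - n)]
    · rw [if_pos (by omega), mul_one]
    · intro j hj hne
      rw [Finset.mem_Icc] at hj
      rw [if_neg (by omega), mul_zero]
    · intro hj
      rw [Finset.mem_Icc] at hj
      exact absurd (by omega) hj
  · rw [if_neg h]
    apply Finset.sum_eq_zero
    intro j hj
    rw [Finset.mem_Icc] at hj
    rw [if_neg (by omega), mul_zero]

theorem scale_step (F1 F2 : ℝ[X]) (e : ℕ) (c : ℕ → ℝ) (τ : ℝ) (hτ : 0 < τ)
    (h1 : F1.Monic) (d1 : F1.natDegree = 44) (h2 : F2.Monic) (d2 : F2.natDegree = 46)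
    (prod : F1 * F2 = P (fun j => c j * τ ^ j) e) (n1 : nice1 F1) (n2 : nice2 F2)
    (p : ℝ[X]) (hp : p.Monic) (hpd : p.natDegree = 89) (hc : ∀ j, c j = p.coeff (89 - j)) :
    ∃ (G1 G2 : ℝ[X]) (K : ℝ), G1.Monic ∧ G1.natDegree = 44 ∧ G2.Monic ∧ G2.natDegree = 46 ∧
      X * p + C K = G1 * G2 ∧ nice1 G1 ∧ nice2 G2 := by
  have hτ0 : τ ≠ 0 := ne_of_gt hτ
  obtain ⟨R, hR⟩ : ∃ R : ℝ, R = 1 / τ := ⟨_, rfl⟩
  have hRp : 0 < R := by rw [hR]; positivity
  have hτR : τ * R = 1 := by rw [hR]; field_simp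
  have hnd : (F1 * F2).natDegree = 90 := by
    rw [h1.natDegree_mul h2, d1, d2]
  refine ⟨F1.scaleRoots R, F2.scaleRoots R, -(-1) ^ e * R ^ 90,
    (Polynomial.monic_scaleRoots_iff R).2 h1, by rw [Polynomial.natDegree_scaleRoots, d1],
    (Polynomial.monic_scaleRoots_iff R).2 h2, by rw [Polynomial.natDegree_scaleRoots, d2], ?_, ?_, ?_⟩
  · rw [← Polynomial.mul_scaleRoots_of_noZeroDivisors]
    ext n
    rw [Polynomial.coeff_scaleRoots, hnd, prod, coeff_P, Polynomial.coeff_add, Polynomial.coeff_C]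
    rcases Nat.eq_zero_or_pos n with hn | hn
    · subst hn
      simp
    · obtain ⟨m, rfl⟩ : ∃ m, n = m + 1 := ⟨n - 1, by omega⟩
      rw [Polynomial.coeff_X_mul, if_neg (by omega : ¬ (m + 1 = 0)), if_neg (by omega : ¬ (m + 1 = 0))]
      rcases lt_trichotomy m 89 with hm | hm | hm
      · rw [if_neg (by omega), if_pos (by omega)]
        have e1 : 90 - (m + 1) = 89 - m := by omega
        rw [e1, hc (89 - m)]
        have e2 : 89 - (89 - m) = m := by omega
        rw [e2]
        have : τ ^ (89 - m) * R ^ (89 - m) = 1 := by rw [← mul_pow, hτR, one_pow]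
        linear_combination (-p.coeff m) * this
      · subst hm
        rw [if_pos rfl, if_neg (by omega)]
        have : p.coeff 89 = 1 := by
          have := hp.coeff_natDegree
          rwa [hpd] at this
        rw [this]; norm_num
      · rw [if_neg (by omega), if_neg (by omega)]
        have : p.coeff m = 0 := Polynomial.coeff_eq_zero_of_natDegree_lt (by omega)
        rw [this]; norm_num
  · obtain ⟨a1, a2, a3, a4⟩ := n1
    refine ⟨?_, ?_, ?_, ?_⟩
    · rw [Polynomial.coeff_scaleRoots, a1, zero_mul]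
    · rw [Polynomial.coeff_scaleRoots]
      exact mul_neg_of_neg_of_pos a2 (pow_pos hRp _)
    · rw [Polynomial.coeff_scaleRoots]
      exact mul_pos a3 (pow_pos hRp _)
    · intro l hl1 hl2
      rw [hs_scale F1 R 44 d1 l (by omega)]
      exact mul_pos (pow_pos hRp _) (a4 l hl1 hl2)
  · obtain ⟨a2, a3, a4⟩ := n2
    refine ⟨?_, ?_, ?_⟩
    · rw [Polynomial.coeff_scaleRoots]
      exact mul_pos a2 (pow_pos hRp _)
    · rw [Polynomial.coeff_scaleRoots]
      exact mul_pos a3 (pow_pos hRp _)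
    · intro l hl1 hl2
      rw [hs_scale F2 R 46 d2 l (by omega)]
      have h1 := mul_pos (pow_pos hRp l) (a4 l hl1 hl2)
      calc (0 : ℝ) < _ := h1
        _ = _ := by ring

end Pool.Agent.K1H10.SP.D1a
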