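import Pool.Agent.Helper993.TwoN.A1a
import Pool.Agent.Helper993.TwoN.B7d
import Pool.Agent.Helper993.TwoN.B7e
import Pool.Agent.K1H10.SP.A1b
import Pool.Agent.K1H10.SP.A2
import Pool.Agent.K1H10.SP.B1
import Pool.Agent.K1H10.SP.B1b
import Pool.Agent.K1H10.SP.B2
import Pool.Agent.K1H10.SP.B3
import Pool.Agent.K1H10.SP.B4
import Pool.Agent.K1H10.SP.B5
import Pool.Agent.K1H10.SP.B6
import Pool.Agent.K1H10.SP.B7a
import Pool.Agent.K1H10.SP.B7b
import Pool.Agent.K1H10.SP.B7c
import Pool.Agent.K1H10.SP.B7f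
import Pool.Agent.K1H10.SP.B7
import Pool.Agent.K1H10.SP.C1
import Pool.Agent.K1H10.SP.C2a
import Pool.Agent.K1H10.SP.C2b
import Pool.Agent.K1H10.SP.C2c
import Pool.Agent.K1H10.SP.C3a
import Pool.Agent.K1H10.SP.C3b
import Pool.Agent.K1H10.SP.C3c
import Pool.Agent.K1H10.SP.C4
import Pool.Agent.K1H10.SP.C5
import Pool.Agent.K1H10.SP.D1a
import Pool.Agent.K1H10.SP.D1b
import Pool.Agent.K1H10.SP.D1
import Pool.Agent.K1H10.SP.Num.T0
import Pool.Agent.K1H10.SP.Num.T1
import Pool.Agent.K1H10.SP.Num.T2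
import Pool.Agent.K1H10.SP.Num.N0
import Pool.Agent.K1H10.SP.Num.N1
import Pool.Agent.K1H10.SP.Num.N2
import Pool.Agent.K1H10.SP.Num.N3
import Pool.Agent.K1H10.SP.Num.N4
import Pool.Agent.K1H10.SP.Num.R0
import Pool.Agent.K1H10.SP.Num.R1
import Pool.Agent.K1H10.SP.Num.R2
import Pool.Agent.K1H10.SP.Num.R3
import Pool.Agent.K1H10.SP.Num.R4
import Pool.Agent.K1H10.SP.Num.L0
import Pool.Agent.K1H10.SP.Num.L1
import Pool.Agent.K1H10.SP.Num.L2
import Pool.Agent.K1H10.SP.Num.L3
import Pool.Agent.K1H10.SP.Num.L4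

set_option autoImplicit false

namespace Pool.Agent.K1H10.SP

open Polynomial

/-! ### Collecting the numerical checks -/

theorem mem_chunk {α : Type} (c : ℕ) (hc : 0 < c) (l : List α) (n : ℕ) (hl : l.length ≤ c * n)
    (t : α) (ht : t ∈ l) : ∃ k < n, t ∈ (l.drop (c * k)).take c := by
  obtain ⟨i, hi, rfl⟩ := List.mem_iff_getElem.1 ht
  have hk : i / c < n := Nat.div_lt_of_lt_mul (lt_of_lt_of_le hi hl)
  refine ⟨i / c, hk, ?_⟩
  rw [List.mem_iff_getElem]
  have h1 : c * (i / c) + i % c = i := Nat.div_add_mod i c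
  have h2 : i % c < c := Nat.mod_lt _ hc
  refine ⟨i % c, ?_, ?_⟩
  · rw [List.length_take, List.length_drop]
    exact lt_min h2 (by omega)
  · rw [List.getElem_take, List.getElem_drop]
    congr 1

theorem eq_of_chunks {α : Type} (c : ℕ) (n : ℕ) : ∀ (l1 l2 : List α), l1.length ≤ c * n →
    l2.length ≤ c * n → (∀ k < n, (l1.drop (c * k)).take c = (l2.drop (c * k)).take c) →
    l1 = l2 := by
  induction n with
  | zero =>
    intro l1 l2 h1 h2 _
    rw [Nat.mul_zero, Nat.le_zero, List.length_eq_zero_iff] at h1 h2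
    rw [h1, h2]
  | succ n ih =>
    intro l1 l2 h1 h2 h
    have e0 := h 0 (Nat.succ_pos n)
    simp only [Nat.mul_zero, List.drop_zero] at e0
    have e1 : l1.drop c = l2.drop c := by
      apply ih
      · rw [List.length_drop]; rw [Nat.mul_succ] at h1; omega
      · rw [List.length_drop]; rw [Nat.mul_succ] at h2; omega
      · intro k hk
        rw [List.drop_drop, List.drop_drop]
        have := h (k + 1) (by omega)
        rw [Nat.mul_succ] at this
        rw [show c + c * k = c * k + c by omega]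
        exact this
    rw [← List.take_append_drop c l1, ← List.take_append_drop c l2, e0, e1]

theorem chk_all : ∀ t ∈ Data, chk t = true := by
  intro t ht
  obtain ⟨k, hk, hm⟩ := mem_chunk 25 (by norm_num) Data 10 (by decide +kernel) t ht
  have key : ((Data.drop (25 * k)).take 25).all chk = true := by
    interval_cases k
    · exact chk_0
    · exact chk_1
    · exact chk_2
    · exact chk_3
    · exact chk_4
    · exact chk_5
    · exact chk_6
    · exact chk_7
    · exact chk_8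
    · exact chk_9
  exact List.all_eq_true.1 key t hm

theorem rows_all : Data.map rowD = RW := by
  apply eq_of_chunks 25 10
  · rw [List.length_map]; decide +kernel
  · decide +kernel
  · intro k hk
    interval_cases k
    · exact row_0
    · exact row_1
    · exact row_2
    · exact row_3
    · exact row_4
    · exact row_5
    · exact row_6
    · exact row_7
    · exact row_8
    · exact row_9

theorem lpAll_get (a len : ℕ) (pos : Bool) (h : lpAll a len pos = true) (i : ℕ) (h1 : a ≤ i)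
    (h2 : i < a + len) : ∃ n, lpCheck RW (i + 1) pos n = true := by
  unfold lpAll at h
  rw [List.all_eq_true] at h
  exact ⟨_, h i (List.mem_range'_1.2 ⟨h1, h2⟩)⟩

theorem lp_all (i : ℕ) (hi : i < 89) (pos : Bool) : ∃ n, lpCheck RW (i + 1) pos n = true := by
  cases pos
  · rcases Nat.lt_or_ge i 9 with h | h
    · exact lpAll_get _ _ _ lpM_0 i (by omega) (by omega)
    rcases Nat.lt_or_ge i 18 with h | h
    · exact lpAll_get _ _ _ lpM_1 i (by omega) (by omega)
    rcases Nat.lt_or_ge i 27 with h | h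
    · exact lpAll_get _ _ _ lpM_2 i (by omega) (by omega)
    rcases Nat.lt_or_ge i 36 with h | h
    · exact lpAll_get _ _ _ lpM_3 i (by omega) (by omega)
    rcases Nat.lt_or_ge i 45 with h | h
    · exact lpAll_get _ _ _ lpM_4 i (by omega) (by omega)
    rcases Nat.lt_or_ge i 54 with h | h
    · exact lpAll_get _ _ _ lpM_5 i (by omega) (by omega)
    rcases Nat.lt_or_ge i 63 with h | h
    · exact lpAll_get _ _ _ lpM_6 i (by omega) (by omega)
    rcases Nat.lt_or_ge i 72 with h | h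
    · exact lpAll_get _ _ _ lpM_7 i (by omega) (by omega)
    rcases Nat.lt_or_ge i 81 with h | h
    · exact lpAll_get _ _ _ lpM_8 i (by omega) (by omega)
    exact lpAll_get _ _ _ lpM_9 i (by omega) (by omega)
  · rcases Nat.lt_or_ge i 9 with h | h
    · exact lpAll_get _ _ _ lpP_0 i (by omega) (by omega)
    rcases Nat.lt_or_ge i 18 with h | h
    · exact lpAll_get _ _ _ lpP_1 i (by omega) (by omega)
    rcases Nat.lt_or_ge i 27 with h | h
    · exact lpAll_get _ _ _ lpP_2 i (by omega) (by omega)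
    rcases Nat.lt_or_ge i 36 with h | h
    · exact lpAll_get _ _ _ lpP_3 i (by omega) (by omega)
    rcases Nat.lt_or_ge i 45 with h | h
    · exact lpAll_get _ _ _ lpP_4 i (by omega) (by omega)
    rcases Nat.lt_or_ge i 54 with h | h
    · exact lpAll_get _ _ _ lpP_5 i (by omega) (by omega)
    rcases Nat.lt_or_ge i 63 with h | h
    · exact lpAll_get _ _ _ lpP_6 i (by omega) (by omega)
    rcases Nat.lt_or_ge i 72 with h | h
    · exact lpAll_get _ _ _ lpP_7 i (by omega) (by omega)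
    rcases Nat.lt_or_ge i 81 with h | h
    · exact lpAll_get _ _ _ lpP_8 i (by omega) (by omega)
    exact lpAll_get _ _ _ lpP_9 i (by omega) (by omega)

theorem tAll_get (a len : ℕ) (h : tAll a len = true) (i : ℕ) (h1 : a ≤ i) (h2 : i < a + len) :
    TLf i = packT ctf i 89 := by
  unfold tAll at h
  rw [List.all_eq_true] at h
  exact of_decide_eq_true (h i (List.mem_range'_1.2 ⟨h1, h2⟩))

theorem tab_all (a : ℕ) (ha : a < 90) : TLf a = packT ctf a 89 := by
  rcases Nat.lt_or_ge a 10 with h | h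
  · exact tAll_get _ _ tab_0 a (by omega) (by omega)
  rcases Nat.lt_or_ge a 20 with h | h
  · exact tAll_get _ _ tab_1 a (by omega) (by omega)
  rcases Nat.lt_or_ge a 30 with h | h
  · exact tAll_get _ _ tab_2 a (by omega) (by omega)
  rcases Nat.lt_or_ge a 40 with h | h
  · exact tAll_get _ _ tab_3 a (by omega) (by omega)
  rcases Nat.lt_or_ge a 50 with h | h
  · exact tAll_get _ _ tab_4 a (by omega) (by omega)
  rcases Nat.lt_or_ge a 60 with h | h
  · exact tAll_get _ _ tab_5 a (by omega) (by omega)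
  rcases Nat.lt_or_ge a 70 with h | h
  · exact tAll_get _ _ tab_6 a (by omega) (by omega)
  rcases Nat.lt_or_ge a 80 with h | h
  · exact tAll_get _ _ tab_7 a (by omega) (by omega)
  exact tAll_get _ _ tab_8 a (by omega) (by omega)

/-! ### Assembling the lemmas -/

theorem F_FU_map (e : ℕ) (U : Finset ℕ) (pm : Bool) (hU : U ⊆ UP e) (hp : pm = true → e = 0) :
    (FU U pm).map (algebraMap ℝ ℂ) = ∏ a ∈ full U pm, (X - C (w a)) :=
  B7c.FU_map B7a.w_conj B7a.w_norm e U pm hU hp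

theorem F_power_sum (e : ℕ) (U : Finset ℕ) (pm : Bool) (hU : U ⊆ UP e) (hp : pm = true → e = 0)
    (m : ℕ) : ∑ a ∈ full U pm, (w a) ^ m = ((sg U pm m : ℝ) : ℂ) :=
  B7c.power_sum B7a.w_conj B7a.w_norm e U pm hU hp m

theorem F_coeff42 (e : ℕ) (U : Finset ℕ) (pm : Bool) (hV : Valid e U pm) :
    (FU U pm).coeff 42 = eta U pm :=
  B7f.FU_coeff34 F_FU_map F_power_sum B7b.full_union Pool.Agent.Helper993.TwoN.B7d.coeff_top2 e U pm hV

theorem F_family (e : ℕ) (U : Finset ℕ) (pm : Bool) (hV : Valid e U pm) :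
    ∃ F1 F2 : (ℕ → ℝ) → ℝ[X], Family e U pm F1 F2 :=
  B7.family_exists B1.root_existsUnique B6.root_lip
    (B3.sum_est B2.parseval B1b.root_est B7a.w_pow)
    (B4.e2_est B7b.full_union F_power_sum B7a.w_pow)
    B5.coeff_pert B7a.w_pow B7a.w_conj B7a.w_norm B7b.full_union B7b.full_sub F_FU_map
    Pool.Agent.Helper993.TwoN.B7d.coeff_top1 Pool.Agent.Helper993.TwoN.B7d.coeff_top2 Pool.Agent.Helper993.TwoN.B7d.coeff_cont Pool.Agent.Helper993.TwoN.B7e.real_prod (B7f.P_prod B7a.w_dist)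
    (B7f.z_conj B1.root_existsUnique B7a.w_pow) e U pm hV

theorem F_nice (e : ℕ) (U : List ℕ) (pm : Bool) (hv : validL e U pm = true)
    (hc : niceCheck ctf e U pm = true) :
    Valid e U.toFinset pm ∧ U.Nodup ∧ (∀ a ∈ U, a < 90) ∧
      U.length + (if pm then 1 else 0) = 22 ∧ NiceSet e U.toFinset pm :=
  C3c.nice_sound (C3a.coefR_sound C2a.digsRev_eq C2a.digit_sound) C3b.sumAbs_eq
    ctf C1.ctf_spec C1.ctf_bound e U pm hv hc

theorem chk_split (t : ℕ × List ℕ × Bool) (h : chk t = true) :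
    validL t.1 t.2.1 t.2.2 = true ∧ niceCheck ctf t.1 t.2.1 t.2.2 = true ∧
      (gI ctf t.2.1 t.2.2 1).natAbs ≤ 3 * 2 ^ 64 - 100 ∧ 2 ^ 75 < (etaI ctf t.2.1 t.2.2).natAbs := by
  unfold chk at h
  rw [Bool.and_eq_true, Bool.and_eq_true, Bool.and_eq_true] at h
  obtain ⟨⟨⟨h1, h2⟩, h3⟩, h4⟩ := h
  refine ⟨h1, h2, ?_, ?_⟩
  · exact Nat.le_of_ble_eq_true h3
  · exact Nat.le_of_ble_eq_true h4

theorem sg_bound (U : List ℕ) (pm : Bool) (hn : U.Nodup) (hl : U.length ≤ 22)
    (h : (gI ctf U pm 1).natAbs ≤ 3 * 2 ^ 64 - 100) : |sg U.toFinset pm 1| ≤ 3 := by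
  have h1 := C2b.gI_sound ctf C1.ctf_spec U hn hl pm 1
  have h2 : |((gI ctf U pm 1 : ℤ) : ℝ)| ≤ 3 * 2 ^ 64 - 100 := by
    have h3 : (((gI ctf U pm 1).natAbs : ℕ) : ℝ) ≤ ((3 * 2 ^ 64 - 100 : ℕ) : ℝ) := Nat.cast_le.2 h
    have h4 : (((3 * 2 ^ 64 - 100 : ℕ)) : ℝ) = 3 * 2 ^ 64 - 100 := by norm_num
    rw [h4] at h3
    rw [← Int.cast_abs, Int.abs_eq_natAbs, Int.cast_natCast]
    exact h3
  rw [abs_le] at h1 h2 ⊢
  constructor <;> nlinarith [h1.1, h1.2, h2.1, h2.2]

theorem F_all (t : ℕ × List ℕ × Bool) (ht : t ∈ Data) :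
    Valid t.1 t.2.1.toFinset t.2.2 ∧ t.2.1.Nodup ∧ (∀ a ∈ t.2.1, a < 90) ∧
      t.2.1.length + (if t.2.2 then 1 else 0) = 22 ∧ NiceSet t.1 t.2.1.toFinset t.2.2 ∧
      |sg t.2.1.toFinset t.2.2 1| ≤ 3 ∧ 2 ^ 75 < (etaI ctf t.2.1 t.2.2).natAbs := by
  obtain ⟨h1, h2, h3, h4⟩ := chk_split t (chk_all t ht)
  obtain ⟨a1, a2, a3, a4, a5⟩ := F_nice _ _ _ h1 h2
  exact ⟨a1, a2, a3, a4, a5, sg_bound _ _ a2 (by omega) h3, h4⟩

theorem F_detect : Detect Data := by
  apply C4.detect_sound C2a.digit_sound C2a.absSum_eq ctf TLf Data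
  · decide +kernel
  · intro t ht
    exact C2c.rowW_sound ctf TLf tab_all t.2.1 (F_all t ht).2.2.1 t.2.2
  · intro t ht j
    obtain ⟨a1, a2, a3, a4, a5, a6, a7⟩ := F_all t ht
    exact C2b.RI_sound ctf C1.ctf_spec t.2.1 a2 t.2.2 a4 a6 j
  · intro t ht
    obtain ⟨a1, a2, a3, a4, a5, a6, a7⟩ := F_all t ht
    exact C2b.etaI_sound ctf C1.ctf_spec t.2.1 a2 t.2.2 a4 a6
  · intro t ht
    exact (F_all t ht).2.2.2.2.2.2
  · intro j0 hj0 pos
    have h1 := Finset.mem_Icc.1 hj0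
    obtain ⟨n, hn⟩ := lp_all (j0 - 1) (by omega) pos
    refine ⟨n, ?_⟩
    have h2 : Data.map (fun t => rowS ctf TLf t.2.1 t.2.2) = RW := rows_all
    rw [h2]
    rw [show j0 - 1 + 1 = j0 by omega] at hn
    exact hn

/-- the exact zero of `e_2` -/
def U0 : List ℕ := [1, 7, 11, 15, 17, 19, 23, 27, 29, 33, 37, 43, 49, 53, 55, 65, 71, 75, 79, 83,
  87, 89]

theorem U0_valid : validL 1 U0 false = true := by decide +kernel

theorem U0_nice : niceCheck ctf 1 U0 false = true := by decide +kernel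

theorem F_nil : ∃ F1 F2 : ℝ[X], F1.Monic ∧ F1.natDegree = 44 ∧ F2.Monic ∧ F2.natDegree = 46 ∧
    F1 * F2 = X ^ 90 + 1 ∧ nice1 F1 ∧ nice2 F2 := by
  obtain ⟨a1, a2, a3, a4, a5⟩ := F_nice 1 U0 false U0_valid U0_nice
  obtain ⟨b1, b2, b3, b4, b5⟩ := C5.prod_all 1 U0.toFinset false B7a.w_pow B7a.w_inj F_FU_map
    B7b.full_union a1
  have h42 : (FU U0.toFinset false).coeff 42 = 0 := by
    rw [F_coeff42 1 U0.toFinset false a1]
    have h1 : U0.toFinset = ({1, 7, 11, 15, 17, 19, 23, 27, 29, 33, 37, 43, 49, 53, 55, 65, 71,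
      75, 79, 83, 87, 89} : Finset ℕ) := by decide +kernel
    rw [h1]
    exact C5.eta_zero
  have hc := a5 (FU U0.toFinset false) (FU (comp 1 U0.toFinset) (cpm 1 false))
    (fun i => by
      rw [sub_self, abs_zero]
      exact mul_nonneg (by norm_num) (Finset.sum_nonneg fun _ _ => abs_nonneg _))
    (fun i => by
      rw [sub_self, abs_zero]
      exact mul_nonneg (by norm_num) (Finset.sum_nonneg fun _ _ => abs_nonneg _))
    (by rw [sub_self, abs_zero]; norm_num) (by rw [sub_self, abs_zero]; norm_num) h42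
  refine ⟨_, _, b2, b3, b4, b5, ?_, hc.1, hc.2⟩
  rw [b1, pow_one, C_neg, C_1, sub_neg_eq_add]

/-- Every monic real polynomial of degree 89 is the characteristic polynomial of a matrix with
the signs `patS`. -/
theorem realise_all (p : ℝ[X]) (hp : p.Monic) (hpd : p.natDegree = 89) :
    ∃ A : Matrix (Fin 89) (Fin 89) ℝ, (∀ i j, SignType.sign (A i j) = patS i j) ∧
      A.charpoly = p := by
  obtain ⟨F1, F2, K, h1, h2, h3, h4, h5, h6, h7⟩ := D1.main_factor D1a.scale_step D1b.exit_time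
    F_coeff42 Data F_detect (fun t ht => ⟨(F_all t ht).1, (F_all t ht).2.2.2.2.2.1,
      (F_all t ht).2.2.2.2.1⟩) F_family F_nil p hp hpd
  exact A1b.realise Pool.Agent.Helper993.TwoN.A1a.hess_charpoly p F1 F2 hp hpd h1 h2 h3 h4 K h5 h6 h7

end Pool.Agent.K1H10.SP
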